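import Pool.Agent.TH850.UR.SelDens
import Pool.Agent.H24R2.JP.Zeros
import Pool.Agent.H370R2.PC2
import Pool.Agent.H370R2.DirGood

set_option autoImplicit false

/-! # Exponential moments of the distances of the zeros from the critical line -/

namespace Pool.Agent.TH850.UR

open Complex Filter Topology MeasureTheory Set
open Pool.Agent.H24R2.JP (XX)
open Pool.Agent.H24R2.DZ (ra)
open Pool.Agent.W571.SD (wt wt_nonneg ra_eq)
open H370 (Zf zset mult NN mem_Zf NN_eq good_zeta)

theorem zeta_eq {z : ℂ} (h0 : z ≠ 0) (h1 : z ≠ 1) :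
    riemannZeta z = ((Gammaℝ z)⁻¹ * (4 * (z - 1 / 2) ^ 2 - 1)⁻¹) * XX (z - 1 / 2) := by
  have e1 : (1 / 2 + (z - 1 / 2) : ℂ) = z := by ring
  have h2 : (1 - (1 / 2 + (z - 1 / 2)) : ℂ) ≠ 0 := by
    rw [e1]; exact sub_ne_zero.2 h1.symm
  have h3 : (4 * (z - 1 / 2) ^ 2 - 1 : ℂ) ≠ 0 := by
    have : (4 * (z - 1 / 2) ^ 2 - 1 : ℂ) = 4 * (z * (z - 1)) := by ring
    rw [this]
    exact mul_ne_zero (by norm_num) (mul_ne_zero h0 (sub_ne_zero.2 h1))
  rw [Pool.Agent.H24R2.JP.Zer.XX_eq (z - 1 / 2) (by rw [e1]; exact h0) h2, e1,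
    riemannZeta_def_of_ne_zero h0]
  generalize (4 * (z - 1 / 2) ^ 2 - 1 : ℂ) = D at h3 ⊢
  field_simp

theorem order_eq {s : ℂ} (him : 0 < s.im) (hre : 0 < s.re) :
    analyticOrderNatAt riemannZeta s = analyticOrderNatAt XX (s - 1 / 2) := by
  have hne0 : s ≠ 0 := fun h => by rw [h] at him; simp at him
  have hne1 : s ≠ 1 := fun h => by rw [h] at him; simp at him
  have hopen : ∀ᶠ z : ℂ in 𝓝 s, 0 < z.im :=
    Complex.continuous_im.continuousAt.eventually (lt_mem_nhds him)
  have e : riemannZeta =ᶠ[𝓝 s]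
      (fun z => (Gammaℝ z)⁻¹ * (4 * (z - 1 / 2) ^ 2 - 1)⁻¹) * (XX ∘ fun z => z - 1 / 2) := by
    filter_upwards [hopen] with z hz
    have h0 : z ≠ 0 := fun h => by rw [h] at hz; simp at hz
    have h1 : z ≠ 1 := fun h => by rw [h] at hz; simp at hz
    exact zeta_eq h0 h1
  have h3 : (4 * (s - 1 / 2) ^ 2 - 1 : ℂ) ≠ 0 := by
    have : (4 * (s - 1 / 2) ^ 2 - 1 : ℂ) = 4 * (s * (s - 1)) := by ring
    rw [this]
    exact mul_ne_zero (by norm_num) (mul_ne_zero hne0 (sub_ne_zero.2 hne1))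
  have ha : AnalyticAt ℂ (fun z => (Gammaℝ z)⁻¹ * (4 * (z - 1 / 2) ^ 2 - 1)⁻¹) s := by
    refine (differentiable_Gammaℝ_inv.analyticAt s).mul ?_
    exact AnalyticAt.inv (by fun_prop) h3
  have h4 : analyticOrderAt (fun z => (Gammaℝ z)⁻¹ * (4 * (z - 1 / 2) ^ 2 - 1)⁻¹) s = 0 := by
    rw [ha.analyticOrderAt_eq_zero]
    exact mul_ne_zero (inv_ne_zero (Gammaℝ_ne_zero_of_re_pos hre)) (inv_ne_zero h3)
  have hg : AnalyticAt ℂ (fun s : ℂ => s - 1 / 2) s := by fun_prop
  have hg' : deriv (fun s : ℂ => s - 1 / 2) s ≠ 0 := by simp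
  have h2 : analyticOrderAt (XX ∘ fun s => s - 1 / 2) s = analyticOrderAt XX (s - 1 / 2) :=
    analyticOrderAt_comp_of_deriv_ne_zero hg hg'
  unfold analyticOrderNatAt
  rw [analyticOrderAt_congr e, analyticOrderAt_mul ha ((XX_diff.analyticAt _).comp hg), h4, h2,
    zero_add]

theorem XX_zero {s : ℂ} (him : 0 < s.im) (hre : 0 < s.re) (h : riemannZeta s = 0) :
    XX (s - 1 / 2) = 0 := by
  have hne0 : s ≠ 0 := fun h => by rw [h] at him; simp at him
  have hne1 : s ≠ 1 := fun h => by rw [h] at him; simp at him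
  rw [zeta_eq hne0 hne1] at h
  rcases mul_eq_zero.1 h with h1 | h1
  · exfalso
    have h3 : (4 * (s - 1 / 2) ^ 2 - 1 : ℂ) ≠ 0 := by
      have : (4 * (s - 1 / 2) ^ 2 - 1 : ℂ) = 4 * (s * (s - 1)) := by ring
      rw [this]
      exact mul_ne_zero (by norm_num) (mul_ne_zero hne0 (sub_ne_zero.2 hne1))
    exact mul_ne_zero (inv_ne_zero (Gammaℝ_ne_zero_of_re_pos hre)) (inv_ne_zero h3) h1
  · exact h1

/-- the weight of a zero -/
noncomputable def ew (κ L : ℝ) (s : ℂ) : ℝ := Real.exp (κ * (|s.re - 1 / 2| * L))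

theorem expmom : ∃ κ C T0 : ℝ, 0 < κ ∧ κ ≤ 1 ∧ 0 < C ∧ 10 ≤ T0 ∧ ∀ T : ℝ, T0 ≤ T →
    ∑ s ∈ Zf riemannZeta T (2 * T), (mult riemannZeta s : ℝ) * ew κ (Real.log T) s ≤
      C * (T * Real.log T) := by
  classical
  obtain ⟨c, C1, T1, n0, hc, hC1, hT1, hdens⟩ := dens
  obtain ⟨C2, hC2, hcr⟩ := H370.NN_crude good_zeta
  set κ := min 1 (c / 400) with hκd
  have hκ0 : 0 < κ := lt_min one_pos (by positivity)
  have hκ1 : κ ≤ c / 400 := min_le_right _ _
  set C3 := C1 + C2 * Real.exp (c * n0) with hC3d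
  have hC3 : 0 < C3 := by positivity
  have hq : Real.exp (-(c / 2)) < 1 := Real.exp_lt_one_iff.2 (by linarith)
  refine ⟨κ, C3 * Real.exp (c / 2) / (1 - Real.exp (-(c / 2))), max 10 T1, hκ0, min_le_left _ _,
    div_pos (by positivity) (by linarith), le_max_left _ _, fun T hT => ?_⟩
  have hT10 : 10 ≤ T := (le_max_left _ _).trans hT
  have hTT1 : T1 ≤ T := (le_max_right _ _).trans hT
  have hT0 : 0 < T := by linarith
  set L := Real.log T with hL
  have hL0 : 0 < L := Real.log_pos (by linarith)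
  set N : ℕ := ⌊L / 400⌋₊ with hN
  have hN1 : (N : ℝ) ≤ L / 400 := Nat.floor_le (by positivity)
  have hN2 : L / 400 < N + 1 := Nat.lt_floor_add_one _
  set nn : ℂ → ℕ := fun s => min ⌊500 * (|s.re - 1 / 2| * L)⌋₊ N with hnn
  set S := Zf riemannZeta T (2 * T) with hS
  have hmem : ∀ s ∈ S, s ∈ zset riemannZeta T (2 * T) := fun s hs => by
    rwa [hS, mem_Zf good_zeta (by linarith)] at hs
  -- bound of the weight
  have hw : ∀ s ∈ S, ew κ L s ≤ Real.exp (c / 2 * ((nn s : ℝ) + 1)) := by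
    intro s hs
    obtain ⟨h1, h2, h3, h4, h5⟩ := hmem s hs
    unfold ew
    apply Real.exp_le_exp.2
    have hx0 : 0 ≤ |s.re - 1 / 2| := abs_nonneg _
    have hx1 : |s.re - 1 / 2| ≤ 1 / 2 := by rw [abs_le]; constructor <;> linarith
    rcases le_total ⌊500 * (|s.re - 1 / 2| * L)⌋₊ N with h | h
    · have h6 : nn s = ⌊500 * (|s.re - 1 / 2| * L)⌋₊ := min_eq_left h
      have h7 := Nat.lt_floor_add_one (500 * (|s.re - 1 / 2| * L))
      rw [← h6] at h7
      have h8 : |s.re - 1 / 2| * L ≤ ((nn s : ℝ) + 1) / 500 := by linarith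
      calc κ * (|s.re - 1 / 2| * L) ≤ κ * (((nn s : ℝ) + 1) / 500) :=
            mul_le_mul_of_nonneg_left h8 hκ0.le
        _ ≤ (c / 400) * (((nn s : ℝ) + 1) / 500) := mul_le_mul_of_nonneg_right hκ1 (by positivity)
        _ ≤ c / 2 * ((nn s : ℝ) + 1) := by
            have : 0 ≤ c * ((nn s : ℝ) + 1) := by positivity
            nlinarith
    · have h6 : nn s = N := min_eq_right h
      rw [h6]
      calc κ * (|s.re - 1 / 2| * L) ≤ κ * (1 / 2 * L) := by gcongr
        _ ≤ (c / 400) * (1 / 2 * L) := mul_le_mul_of_nonneg_right hκ1 (by positivity)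
        _ = c / 2 * (L / 400) := by ring
        _ ≤ c / 2 * ((N : ℝ) + 1) := by gcongr
  -- the classes
  have hcl : ∀ k ∈ Finset.range (N + 1), ∑ s ∈ S.filter (fun s => nn s = k),
      (mult riemannZeta s : ℝ) ≤ C3 * (T * L) * Real.exp (-(c * k)) := by
    intro k hk
    rw [Finset.mem_range, Nat.lt_succ_iff] at hk
    have hk' : (k : ℝ) ≤ L / 400 := (Nat.cast_le.2 hk).trans hN1
    have hTL : 0 ≤ T * L := by positivity
    rcases le_or_gt n0 k with h | h
    · have hinj : Set.InjOn (fun s : ℂ => s - 1 / 2) (S.filter (fun s => nn s = k)) :=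
        fun a _ b _ hab => sub_left_injective hab
      have h1 := hdens T k hTT1 h hk' ((S.filter (fun s => nn s = k)).image (fun s => s - 1 / 2)) (by
        intro s' hs'
        rw [Finset.mem_image] at hs'
        obtain ⟨s, hs, rfl⟩ := hs'
        rw [Finset.mem_filter] at hs
        obtain ⟨g1, g2, g3, g4, g5⟩ := hmem s hs.1
        have e1 : (s - 1 / 2 : ℂ).re = s.re - 1 / 2 := by simp
        have e2 : (s - 1 / 2 : ℂ).im = s.im := by simp
        rw [e1, e2]
        refine ⟨XX_zero (by linarith) g1 g5, ?_, g3, g4⟩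
        rw [ra_eq]
        have g6 : (k : ℝ) ≤ 500 * (|s.re - 1 / 2| * L) := by
          have g7 : k ≤ ⌊500 * (|s.re - 1 / 2| * L)⌋₊ := by
            rw [← hs.2]; exact min_le_left _ _
          exact (Nat.cast_le.2 g7).trans (Nat.floor_le (by positivity))
        rw [div_div, div_le_iff₀ (by positivity)]
        linarith)
      rw [Finset.sum_image hinj] at h1
      have h2 : ∑ s ∈ S.filter (fun s => nn s = k), (mult riemannZeta s : ℝ) =
          ∑ s ∈ S.filter (fun s => nn s = k), wt 0 (s - 1 / 2) := by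
        refine Finset.sum_congr rfl fun s hs => ?_
        rw [Finset.mem_filter] at hs
        obtain ⟨g1, g2, g3, g4, g5⟩ := hmem s hs.1
        unfold H370.mult Pool.Agent.W571.SD.wt
        rw [order_eq (by linarith) g1, iteratedDeriv_zero]
      rw [h2]
      calc _ ≤ C1 * T * Real.exp (-(c * k)) * L := h1
        _ = C1 * (T * L) * Real.exp (-(c * k)) := by ring
        _ ≤ C3 * (T * L) * Real.exp (-(c * k)) := by
            have : C1 ≤ C3 := by
              rw [hC3d]
              have : 0 < C2 * Real.exp (c * n0) := by positivity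
              linarith
            gcongr
    · have h1 : ∑ s ∈ S.filter (fun s => nn s = k), (mult riemannZeta s : ℝ) ≤
          NN riemannZeta T (2 * T) := by
        rw [NN_eq good_zeta (by linarith)]
        push_cast
        exact Finset.sum_le_sum_of_subset_of_nonneg (Finset.filter_subset _ _)
          (fun _ _ _ => Nat.cast_nonneg _)
      have h2 := hcr T (by linarith) T (2 * T) le_rfl le_rfl
      have h3 : 1 ≤ Real.exp (c * n0) * Real.exp (-(c * k)) := by
        rw [← Real.exp_add, Real.one_le_exp_iff]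
        have : (k : ℝ) ≤ n0 := by exact_mod_cast h.le
        nlinarith
      calc _ ≤ C2 * (T * L) := h1.trans h2
        _ ≤ C2 * (T * L) * (Real.exp (c * n0) * Real.exp (-(c * k))) :=
            le_mul_of_one_le_right (by positivity) h3
        _ = (C2 * Real.exp (c * n0)) * (T * L) * Real.exp (-(c * k)) := by ring
        _ ≤ C3 * (T * L) * Real.exp (-(c * k)) := by
            have : C2 * Real.exp (c * n0) ≤ C3 := by rw [hC3d]; linarith
            gcongr
  have hmaps : ∀ s ∈ S, nn s ∈ Finset.range (N + 1) := by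
    intro s _
    rw [Finset.mem_range, Nat.lt_succ_iff]
    exact min_le_right _ _
  calc ∑ s ∈ S, (mult riemannZeta s : ℝ) * ew κ L s
      = ∑ k ∈ Finset.range (N + 1), ∑ s ∈ S.filter (fun s => nn s = k),
          (mult riemannZeta s : ℝ) * ew κ L s := (Finset.sum_fiberwise_of_maps_to hmaps _).symm
    _ ≤ ∑ k ∈ Finset.range (N + 1), ∑ s ∈ S.filter (fun s => nn s = k),
          (mult riemannZeta s : ℝ) * Real.exp (c / 2 * ((k : ℝ) + 1)) := by
        refine Finset.sum_le_sum fun k _ => Finset.sum_le_sum fun s hs => ?_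
        rw [Finset.mem_filter] at hs
        have := hw s hs.1
        rw [hs.2] at this
        exact mul_le_mul_of_nonneg_left this (Nat.cast_nonneg _)
    _ ≤ ∑ k ∈ Finset.range (N + 1), C3 * (T * L) * Real.exp (c / 2) * Real.exp (-(c / 2)) ^ k := by
        refine Finset.sum_le_sum fun k hk => ?_
        rw [← Finset.sum_mul]
        calc (∑ s ∈ S.filter (fun s => nn s = k), (mult riemannZeta s : ℝ)) *
              Real.exp (c / 2 * ((k : ℝ) + 1)) ≤
            (C3 * (T * L) * Real.exp (-(c * k))) * Real.exp (c / 2 * ((k : ℝ) + 1)) :=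
              mul_le_mul_of_nonneg_right (hcl k hk) (Real.exp_pos _).le
          _ = C3 * (T * L) * Real.exp (c / 2) * Real.exp (-(c / 2)) ^ k := by
              rw [mul_assoc, ← Real.exp_add, mul_assoc (C3 * (T * L)), ← Real.exp_nat_mul,
                ← Real.exp_add]
              congr 2
              ring
    _ = C3 * (T * L) * Real.exp (c / 2) * ∑ k ∈ Finset.range (N + 1), Real.exp (-(c / 2)) ^ k := by
        rw [Finset.mul_sum]
    _ ≤ C3 * (T * L) * Real.exp (c / 2) * (1 - Real.exp (-(c / 2)))⁻¹ := by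
        apply mul_le_mul_of_nonneg_left _ (by positivity)
        have h5 := (summable_geometric_of_lt_one (Real.exp_pos _).le hq).sum_le_tsum
          (Finset.range (N + 1)) (fun i _ => pow_nonneg (Real.exp_pos _).le i)
        rwa [tsum_geometric_of_lt_one (Real.exp_pos _).le hq] at h5
    _ = _ := by
        rw [div_eq_mul_inv]
        ring

end Pool.Agent.TH850.UR
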