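import Pool.Agent.TH850.UR.K
import Pool.Agent.TH850.NR.Window

set_option autoImplicit false

/-! # The pointwise comparison of the kernels -/

namespace Pool.Agent.TH850.UR

open Complex Filter Topology MeasureTheory Set
open Pool.Agent.TH850.NR (kone kone_int kone_integral)

section Tail

noncomputable def ktail (R x : ℝ) : ℝ := if R < |x| then 1 / x ^ 2 else 0

noncomputable def fta (R : ℝ) : ℝ → ℝ := Set.indicator (Ioi R) fun y => y ^ (-2 : ℝ)

lemma fta_int {R : ℝ} (hR : 0 < R) : Integrable (fta R) := by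
  unfold fta
  exact IntegrableOn.integrable_indicator (integrableOn_Ioi_rpow_of_lt (by norm_num) hR)
    measurableSet_Ioi

lemma fta_integral {R : ℝ} (hR : 0 < R) : ∫ x, fta R x = 1 / R := by
  unfold fta
  rw [integral_indicator measurableSet_Ioi, integral_Ioi_rpow_of_lt (by norm_num) hR]
  norm_num
  rw [Real.rpow_neg_one]

lemma ktail_eq {R : ℝ} (hR : 0 < R) (x : ℝ) : ktail R x = fta R x + fta R (-x) := by
  unfold ktail fta
  by_cases h : R < |x|
  · rw [if_pos h]
    rcases lt_abs.1 h with h1 | h1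
    · rw [indicator_of_mem (mem_Ioi.2 h1), indicator_of_notMem (by rw [mem_Ioi]; linarith),
        add_zero, Real.rpow_neg (by linarith), Real.rpow_ofNat, one_div]
    · rw [indicator_of_notMem (by rw [mem_Ioi]; linarith), indicator_of_mem (mem_Ioi.2 h1),
        zero_add, Real.rpow_neg (by linarith), Real.rpow_ofNat, one_div, neg_sq]
  · rw [if_neg h]
    push Not at h
    have := abs_le.1 h
    rw [indicator_of_notMem (by rw [mem_Ioi]; linarith [this.2]),
      indicator_of_notMem (by rw [mem_Ioi]; linarith [this.1]), add_zero]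

lemma ktail_int {R : ℝ} (hR : 0 < R) : Integrable (ktail R) := by
  have : ktail R = fun x => fta R x + fta R (-x) := funext (ktail_eq hR)
  rw [this]
  exact (fta_int hR).add (fta_int hR).comp_neg

lemma ktail_integral {R : ℝ} (hR : 0 < R) : ∫ x, ktail R x = 2 / R := by
  simp_rw [ktail_eq hR]
  rw [integral_add (fta_int hR) (fta_int hR).comp_neg, integral_neg_eq_self (fta R) volume,
    fta_integral hR]
  ring

lemma ktail_nonneg (R x : ℝ) : 0 ≤ ktail R x := by unfold ktail; split_ifs <;> positivity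

end Tail

/-- the majorant -/
noncomputable def kmaj (J : ℕ) (b W x : ℝ) : ℝ :=
  (20 / J + 1 / W ^ 2) * (b ^ 2 + 2) * kone b x + 4 ^ J / (7 * J) / W ^ 2 * kone (4 ^ J) x +
    2 * (4 ^ J / (7 * J)) * ktail (4 ^ J) x

lemma kone_nonneg (a x : ℝ) : 0 ≤ kone a x := by unfold kone; split_ifs <;> norm_num

lemma kmaj_int (J : ℕ) (b W : ℝ) : Integrable (kmaj J b W) :=
  (((kone_int b).const_mul _).add ((kone_int _).const_mul _)).add
    ((ktail_int (by positivity)).const_mul _)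

lemma kmaj_integral (J : ℕ) {b : ℝ} (hb : 0 ≤ b) (W : ℝ) : ∫ x, kmaj J b W x =
    (20 / J + 1 / W ^ 2) * (b ^ 2 + 2) * (2 * b) + 4 ^ J / (7 * J) / W ^ 2 * (2 * 4 ^ J) +
    2 * (4 ^ J / (7 * J)) * (2 / 4 ^ J) := by
  unfold kmaj
  have h1 := (kone_int b).const_mul ((20 / J + 1 / W ^ 2) * (b ^ 2 + 2))
  have h2 := (kone_int (4 ^ J)).const_mul (4 ^ J / (7 * J) / W ^ 2)
  have h3 := (ktail_int (R := 4 ^ J) (by positivity)).const_mul (2 * (4 ^ J / (7 * J)))
  have h12 : Integrable (fun x => (20 / J + 1 / W ^ 2) * (b ^ 2 + 2) * kone b x +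
    4 ^ J / (7 * J) / W ^ 2 * kone (4 ^ J) x) := h1.add h2
  rw [integral_add h12 h3, integral_add h1 h2, integral_const_mul, integral_const_mul,
    integral_const_mul, kone_integral hb, kone_integral (by positivity),
    ktail_integral (by positivity)]

lemma kmaj_nonneg (J : ℕ) (b W x : ℝ) : 0 ≤ kmaj J b W x := by
  unfold kmaj
  have h1 := kone_nonneg b x
  have h2 := kone_nonneg (4 ^ J) x
  have h3 := ktail_nonneg (4 ^ J) x
  positivity

/-- the bound for the integral of the majorant -/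
lemma kmaj_bound (J : ℕ) (hJ : 1 ≤ J) {a b W : ℝ} (hb : 0 ≤ b) (hba : b ≤ a)
    (hW : 2 * 4 ^ J ≤ W) : ∫ x, kmaj J b W x ≤ 126 * (1 + a ^ 3) / J := by
  have hJ' : (0 : ℝ) < J := by exact_mod_cast hJ
  have ha : 0 ≤ a := hb.trans hba
  have h4 : (1 : ℝ) ≤ 4 ^ J := one_le_pow₀ (by norm_num)
  have hJ4 : (J : ℝ) ≤ 4 ^ J := by
    exact_mod_cast (Nat.lt_pow_self (by norm_num : 1 < 4)).le
  have hW0 : 0 < W := by linarith
  have hW2 : 2 * (4 : ℝ) ^ J * (2 * 4 ^ J) ≤ W ^ 2 := by nlinarith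
  have e1 : 1 / W ^ 2 ≤ 1 / J := by
    apply one_div_le_one_div_of_le hJ'
    nlinarith
  have e2 : 4 ^ J / (7 * J) / W ^ 2 * (2 * 4 ^ J) ≤ 1 / J := by
    rw [div_div, div_mul_eq_mul_div, div_le_div_iff₀ (by positivity) hJ']
    have : (4 : ℝ) ^ J * (2 * 4 ^ J) ≤ W ^ 2 := by nlinarith
    nlinarith
  have e3 : 2 * ((4 : ℝ) ^ J / (7 * J)) * (2 / 4 ^ J) ≤ 1 / J := by
    have : 2 * ((4 : ℝ) ^ J / (7 * J)) * (2 / 4 ^ J) = 4 / 7 * (1 / J) := by
      field_simp
      norm_num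
    rw [this]
    have : 0 < 1 / (J : ℝ) := by positivity
    linarith
  rw [kmaj_integral J hb]
  calc (20 / J + 1 / W ^ 2) * (b ^ 2 + 2) * (2 * b) + 4 ^ J / (7 * J) / W ^ 2 * (2 * 4 ^ J) +
        2 * (4 ^ J / (7 * J)) * (2 / 4 ^ J) ≤
      (20 / J + 1 / J) * (a ^ 2 + 2) * (2 * a) + 1 / J + 1 / J := by gcongr
    _ = (42 * a ^ 3 + 84 * a + 2) / J := by field_simp; ring
    _ ≤ 126 * (1 + a ^ 3) / J := by
        apply div_le_div_of_nonneg_right _ hJ'.le
        have h5 : a ≤ 1 + a ^ 3 := by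
          rcases le_total a 1 with h | h
          · have : 0 ≤ a ^ 3 := by positivity
            linarith
          · have : 1 * a ≤ a ^ 2 * a := by
              apply mul_le_mul_of_nonneg_right _ ha
              nlinarith
            nlinarith
        linarith

/-- the kernel of the outside zeros -/
noncomputable def kk (J : ℕ) (b W : ℝ) (v : ℂ) : ℂ :=
  if b < |v.re * W| ∧ |v.re * W| ≤ 4 ^ J then phiC J (v * W) else 0

lemma sq_exp {y : ℝ} (hy : 0 ≤ y) : y ^ 2 ≤ 2 * Real.exp y := by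
  have := Real.quadratic_le_exp_of_nonneg hy
  linarith

lemma gau_le {v : ℂ} (hv : |v.im| ≤ 1 / 2) : ‖cexp (-v ^ 2 / 2)‖ ≤ 2 := by
  rw [Complex.norm_exp]
  have h1 : (-v ^ 2 / 2).re = (v.im ^ 2 - v.re ^ 2) / 2 := by
    have : (-v ^ 2 / 2 : ℂ) = -(v * v) / 2 := by ring
    rw [this]
    simp only [Complex.div_ofNat_re, Complex.neg_re, Complex.mul_re]
    ring
  rw [h1]
  have h2 : v.im ^ 2 ≤ 1 / 4 := by
    rw [← sq_abs]
    have := abs_nonneg v.im
    nlinarith
  have h3 : (v.im ^ 2 - v.re ^ 2) / 2 ≤ 1 / 2 := by nlinarith [sq_nonneg v.re]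
  have h4 : Real.exp (1 / 2) ≤ 2 := by
    have h5 := Real.add_one_le_exp (-(1 / 2 : ℝ))
    have h6 : Real.exp (1 / 2) * Real.exp (-(1 / 2)) = 1 := by
      rw [← Real.exp_add, add_neg_cancel, Real.exp_zero]
    have h7 := Real.exp_pos (1 / 2 : ℝ)
    nlinarith
  exact (Real.exp_le_exp.2 h3).trans h4

lemma gau_near {v : ℂ} (h1 : |v.im| ≤ 1 / 2) (h2 : |v.re| ≤ 1 / 2) :
    ‖1 - cexp (-v ^ 2 / 2)‖ ≤ ‖v‖ ^ 2 := by
  have h3 : ‖v‖ ≤ 1 := (Complex.norm_le_abs_re_add_abs_im v).trans (by linarith)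
  have h4 : ‖(-v ^ 2 / 2 : ℂ)‖ = ‖v‖ ^ 2 / 2 := by
    rw [norm_div, norm_neg, norm_pow]
    norm_num
  have h5 : ‖(-v ^ 2 / 2 : ℂ)‖ ≤ 1 := by
    rw [h4]
    have := norm_nonneg v
    nlinarith
  have h6 := Complex.norm_exp_sub_one_le h5
  rw [norm_sub_rev]
  rw [h4] at h6
  linarith

lemma pointwise (J : ℕ) (hJ : 1 ≤ J) {b W : ℝ} (hW : 0 < W) (hbW : b ≤ W / 2)
    (hJW : 4 ^ J ≤ W / 2) (v : ℂ) (hv : |v.im| ≤ 1 / 2) :
    ‖(kone b (v.re * W) : ℂ) + kk J b W v - cexp (-v ^ 2 / 2) * phiC J (v * W)‖ ≤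
      Real.exp (5 * |v.im * W|) * kmaj J b W (v.re * W) := by
  have hJ' : (0 : ℝ) < J := by exact_mod_cast hJ
  set z : ℂ := v * W with hz
  set g : ℂ := cexp (-v ^ 2 / 2) with hg
  have hre : z.re = v.re * W := by rw [hz]; simp
  have him : z.im = v.im * W := by rw [hz]; simp
  have hnz : ‖z‖ = ‖v‖ * W := by
    rw [hz, norm_mul, Complex.norm_real, Real.norm_of_nonneg hW.le]
  rw [← hre, ← him]
  set y := |z.im| with hy
  have hy0 : 0 ≤ y := abs_nonneg _
  have hpi4 : Real.pi ≤ 4 := Real.pi_le_four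
  have hE : Real.exp (Real.pi * y) ≤ Real.exp (5 * y) := Real.exp_le_exp.2 (by nlinarith)
  have hE1 : 1 ≤ Real.exp (Real.pi * y) := Real.one_le_exp (by positivity)
  have hE2 : Real.exp (Real.pi * y) * Real.exp y ≤ Real.exp (5 * y) := by
    rw [← Real.exp_add]; exact Real.exp_le_exp.2 (by nlinarith)
  have hF0 : 0 < Real.exp (5 * y) := Real.exp_pos _
  set E := Real.exp (Real.pi * y) with hEd
  set F := Real.exp (5 * y) with hFd
  have hφ := phiC_le J hJ z
  have hdec := phiC_decay J hJ z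
  have hone := one_sub_phiC J hJ z
  rw [← hy, ← hEd] at hφ hdec hone
  have hn2 : ‖z‖ ^ 2 = z.re ^ 2 + y ^ 2 := by
    rw [Complex.sq_norm, Complex.normSq_apply, hy, sq_abs]; ring
  have k1 := kone_nonneg b z.re
  have k2 := kone_nonneg (4 ^ J) z.re
  have k3 := ktail_nonneg (4 ^ J) z.re
  have h4 : (1 : ℝ) ≤ 4 ^ J := one_le_pow₀ (by norm_num)
  have hv2 : ∀ R : ℝ, R ≤ W / 2 → |z.re| ≤ R → |v.re| ≤ 1 / 2 := by
    intro R hR hzR
    rw [hre, abs_mul, abs_of_pos hW] at hzR
    by_contra hcon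
    push Not at hcon
    nlinarith
  have hnv : ‖v‖ ^ 2 = ‖z‖ ^ 2 / W ^ 2 := by rw [hnz]; field_simp
  by_cases h1 : |z.re| ≤ b
  · -- inside of the window
    have hkk : kk J b W v = 0 := by
      unfold kk
      rw [if_neg]
      rw [← hre]
      rintro ⟨h, -⟩
      linarith
    have hko : kone b z.re = 1 := by unfold kone; rw [if_pos h1]
    have hg1 := gau_near hv (hv2 b hbW h1)
    rw [← hg, hnv] at hg1
    have hsq : ‖z‖ ^ 2 * E ≤ (b ^ 2 + 2) * F := by
      have h5 : z.re ^ 2 ≤ b ^ 2 := by rw [← sq_abs z.re]; gcongr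
      have h6 := sq_exp hy0
      have h7 := Real.one_le_exp hy0
      have h8 : ‖z‖ ^ 2 ≤ (b ^ 2 + 2) * Real.exp y := by
        rw [hn2]
        have : b ^ 2 ≤ b ^ 2 * Real.exp y := le_mul_of_one_le_right (by positivity) h7
        linarith
      calc ‖z‖ ^ 2 * E ≤ ((b ^ 2 + 2) * Real.exp y) * E := by gcongr
        _ = (b ^ 2 + 2) * (E * Real.exp y) := by ring
        _ ≤ _ := mul_le_mul_of_nonneg_left hE2 (by positivity)
    rw [hkk, hko, add_zero]
    have e1 : ((1 : ℝ) : ℂ) - g * phiC J z = (1 - phiC J z) + phiC J z * (1 - g) := by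
      push_cast; ring
    rw [e1]
    calc ‖(1 - phiC J z) + phiC J z * (1 - g)‖ ≤ 20 * ‖z‖ ^ 2 / J * E + E * (‖z‖ ^ 2 / W ^ 2) := by
          refine (norm_add_le _ _).trans (add_le_add hone ?_)
          rw [norm_mul]
          gcongr
      _ = (20 / J + 1 / W ^ 2) * (‖z‖ ^ 2 * E) := by field_simp
      _ ≤ (20 / J + 1 / W ^ 2) * ((b ^ 2 + 2) * F) :=
          mul_le_mul_of_nonneg_left hsq (by positivity)
      _ = F * ((20 / J + 1 / W ^ 2) * (b ^ 2 + 2) * kone b z.re) := by rw [hko]; ring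
      _ ≤ F * kmaj J b W z.re := by
          apply mul_le_mul_of_nonneg_left _ hF0.le
          unfold kmaj
          have : 0 ≤ 4 ^ J / (7 * J) / W ^ 2 * kone (4 ^ J) z.re := by positivity
          have : 0 ≤ 2 * (4 ^ J / (7 * J)) * ktail (4 ^ J) z.re := by positivity
          linarith
  · have hko : kone b z.re = 0 := by unfold kone; rw [if_neg h1]
    push Not at h1
    by_cases h2 : |z.re| ≤ 4 ^ J
    · have hkk : kk J b W v = phiC J z := by
        unfold kk
        rw [if_pos]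
        rw [← hre]
        exact ⟨h1, h2⟩
      have hko4 : kone (4 ^ J) z.re = 1 := by unfold kone; rw [if_pos h2]
      have hg1 := gau_near hv (hv2 (4 ^ J) hJW h2)
      rw [← hg, hnv] at hg1
      rw [hkk, hko]
      have e1 : ((0 : ℝ) : ℂ) + phiC J z - g * phiC J z = phiC J z * (1 - g) := by
        push_cast; ring
      rw [e1, norm_mul]
      calc ‖phiC J z‖ * ‖1 - g‖ ≤ ‖phiC J z‖ * (‖z‖ ^ 2 / W ^ 2) := by gcongr
        _ = (‖phiC J z‖ * ‖z‖ ^ 2) / W ^ 2 := by ring
        _ ≤ (4 ^ J / (7 * J) * F) / W ^ 2 := by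
            apply div_le_div_of_nonneg_right _ (by positivity)
            refine hdec.trans ?_
            gcongr
        _ = F * (4 ^ J / (7 * J) / W ^ 2 * kone (4 ^ J) z.re) := by rw [hko4]; ring
        _ ≤ F * kmaj J b W z.re := by
            apply mul_le_mul_of_nonneg_left _ hF0.le
            unfold kmaj
            have : 0 ≤ (20 / J + 1 / W ^ 2) * (b ^ 2 + 2) * kone b z.re := by positivity
            have : 0 ≤ 2 * (4 ^ J / (7 * J)) * ktail (4 ^ J) z.re := by positivity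
            linarith
    · have hkk : kk J b W v = 0 := by
        unfold kk
        rw [if_neg]
        rw [← hre]
        rintro ⟨-, h⟩
        exact h2 h
      push Not at h2
      have hkt : ktail (4 ^ J) z.re = 1 / z.re ^ 2 := by unfold ktail; rw [if_pos h2]
      have hx0 : 0 < z.re ^ 2 := by
        rw [← sq_abs]
        have : 0 < |z.re| := by linarith
        positivity
      have hg2 := gau_le hv
      rw [← hg] at hg2
      rw [hkk, hko]
      have e1 : ((0 : ℝ) : ℂ) + 0 - g * phiC J z = -(g * phiC J z) := by push_cast; ring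
      rw [e1, norm_neg, norm_mul]
      have h5 : ‖phiC J z‖ ≤ 4 ^ J / (7 * J) * F / z.re ^ 2 := by
        rw [le_div_iff₀ hx0]
        calc ‖phiC J z‖ * z.re ^ 2 ≤ ‖phiC J z‖ * ‖z‖ ^ 2 := by
              apply mul_le_mul_of_nonneg_left _ (norm_nonneg _)
              rw [hn2]
              nlinarith [sq_nonneg y]
          _ ≤ 4 ^ J / (7 * J) * F := by
              refine hdec.trans ?_
              gcongr
      calc ‖g‖ * ‖phiC J z‖ ≤ 2 * (4 ^ J / (7 * J) * F / z.re ^ 2) := by gcongr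
        _ = F * (2 * (4 ^ J / (7 * J)) * ktail (4 ^ J) z.re) := by rw [hkt]; ring
        _ ≤ F * kmaj J b W z.re := by
            apply mul_le_mul_of_nonneg_left _ hF0.le
            unfold kmaj
            have : 0 ≤ (20 / J + 1 / W ^ 2) * (b ^ 2 + 2) * kone b z.re := by positivity
            have : 0 ≤ 4 ^ J / (7 * J) / W ^ 2 * kone (4 ^ J) z.re := by positivity
            linarith

end Pool.Agent.TH850.UR
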