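import Pool.Agent.TH850.UR.ClaimA
import Pool.Agent.TH850.UR.ExpMom
import Pool.Agent.TH850.UR.Maj

set_option autoImplicit false

/-! # Comparison of the count with the statistic of the outside zeros -/

namespace Pool.Agent.TH850.UR

open Complex Filter Topology MeasureTheory Set
open Pool.Agent.TH850.NR (tri cc cc_nonneg kone kone_int kone_integral Lin Lin_integrable
  Lin_integral Lin_nonneg)
open H370 (zz mult Zf zset mem_Zf good_zeta zz_re zz_im NN NN_eq)

/-- the nontrivial zeros of zeta -/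
def zeros : Set ℂ := {s : ℂ | riemannZeta s = 0 ∧ 0 < s.re ∧ s.re < 1}

/-- the position of the ordinate of `s` relative to `t` at the scale of the mean spacing -/
noncomputable def X (T t : ℝ) (s : ℂ) : ℝ := (s.im - t) * Real.log T / (2 * Real.pi)

/-- the number of zeros in the window -/
noncomputable def count (T a t : ℝ) : ℕ :=
  ∑ᶠ s ∈ {s : ℂ | s ∈ zeros ∧ |X T t s| ≤ a}, analyticOrderNatAt riemannZeta s

/-- the complex position -/
noncomputable def Z (T t : ℝ) (s : ℂ) : ℂ := (zz s - t) * (Real.log T / (2 * Real.pi) : ℝ)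

/-- the statistic of the zeros outside the window -/
noncomputable def outer (q J : ℕ) (T a t : ℝ) : ℂ :=
  ∑ᶠ s ∈ {s : ℂ | s ∈ zeros ∧ a < |X T t s| ∧ |X T t s| ≤ 2 ^ q * 4 ^ J},
    (analyticOrderNatAt riemannZeta s : ℂ) * phiC J (Z T t s / 2 ^ q)

/-- the guess for the number of zeros in the window -/
noncomputable def guess (q J : ℕ) (T a t : ℝ) : ℝ := 2 ^ q * cc J - (outer q J T a t).re

lemma mem_Z {A B : ℝ} (hA : 1 ≤ A) {s : ℂ} :
    s ∈ Zf riemannZeta A B ↔ s ∈ zeros ∧ A < s.im ∧ s.im ≤ B := by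
  rw [mem_Zf good_zeta hA]
  unfold zset zeros
  simp only [mem_ofPred_eq]
  tauto

lemma fin_eq {M : Type*} [AddCommMonoid M] {A B : ℝ} (hA : 1 ≤ A) (p : ℂ → Prop) [DecidablePred p]
    (hp : ∀ s, p s → A < s.im ∧ s.im ≤ B) (f : ℂ → M) :
    ∑ᶠ s ∈ {s : ℂ | s ∈ zeros ∧ p s}, f s = ∑ s ∈ Zf riemannZeta A B, if p s then f s else 0 := by
  have h1 : {s : ℂ | s ∈ zeros ∧ p s} = ↑((Zf riemannZeta A B).filter p) := by
    ext s
    simp only [mem_ofPred_eq, Finset.coe_filter]
    rw [mem_Z hA]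
    constructor
    · rintro ⟨h1, h2⟩
      exact ⟨⟨h1, hp s h2⟩, h2⟩
    · rintro ⟨⟨h1, _⟩, h2⟩
      exact ⟨h1, h2⟩
  rw [h1, finsum_mem_coe_finset, Finset.sum_filter]

/-- the count as a sum over a finite set -/
noncomputable def NS (S : Finset ℂ) (b W t : ℝ) : ℝ :=
  Lin S (fun s => (mult riemannZeta s : ℝ)) (fun s => s.im) W (kone b) t

/-- the outer statistic as a sum over a finite set -/
noncomputable def MS (S : Finset ℂ) (J : ℕ) (b W t : ℝ) : ℂ :=
  ∑ s ∈ S, (mult riemannZeta s : ℂ) * kk J b W (zz s - t)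

lemma X_abs (q : ℕ) {T t W : ℝ} (hWd : W = Real.log T / 2 ^ q / (2 * Real.pi)) (s : ℂ) :
    |X T t s| = |(s.im - t) * W| * 2 ^ q := by
  have hpi := Real.pi_pos
  have : X T t s = (s.im - t) * W * 2 ^ q := by
    unfold X; rw [hWd]; field_simp
  rw [this, abs_mul, abs_of_pos (by positivity : (0 : ℝ) < 2 ^ q)]

lemma conv (q J : ℕ) {T a t A B W : ℝ} (hA : 1 ≤ A) (hW : 0 < W)
    (hWd : W = Real.log T / 2 ^ q / (2 * Real.pi)) (h1 : a / 2 ^ q ≤ W / 2) (h2 : 4 ^ J ≤ W / 2)
    (ht : ∀ x, |x - t| ≤ 1 / 2 → A < x ∧ x ≤ B) :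
    (count T a t : ℝ) = NS (Zf riemannZeta A B) (a / 2 ^ q) W t ∧
    guess q J T a t = 2 ^ q * cc J - (MS (Zf riemannZeta A B) J (a / 2 ^ q) W t).re := by
  classical
  have hpi := Real.pi_pos
  have h2q : (0 : ℝ) < 2 ^ q := by positivity
  have hnear : ∀ r : ℝ, r ≤ W / 2 → ∀ s : ℂ, |(s.im - t) * W| ≤ r → A < s.im ∧ s.im ≤ B := by
    intro r hr s hs
    apply ht
    rw [abs_mul, abs_of_pos hW] at hs
    by_contra hcon
    push Not at hcon
    nlinarith
  have i1 : ∀ r : ℝ, ∀ s : ℂ, |X T t s| ≤ r ↔ |(s.im - t) * W| ≤ r / 2 ^ q := by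
    intro r s
    rw [X_abs q hWd, le_div_iff₀ h2q]
  have i2 : ∀ r : ℝ, ∀ s : ℂ, r < |X T t s| ↔ r / 2 ^ q < |(s.im - t) * W| := by
    intro r s
    rw [X_abs q hWd, div_lt_iff₀ h2q]
  have i3 : (2 : ℝ) ^ q * 4 ^ J / 2 ^ q = 4 ^ J := by field_simp
  constructor
  · unfold count NS Lin
    rw [fin_eq (A := A) (B := B) hA (fun s => |X T t s| ≤ a)
      (fun s hs => hnear _ h1 s ((i1 a s).1 hs))]
    push_cast
    refine Finset.sum_congr rfl fun s _ => ?_
    unfold kone mult
    by_cases h : |X T t s| ≤ a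
    · rw [if_pos h, if_pos ((i1 a s).1 h), mul_one]
    · rw [if_neg h, if_neg (fun h' => h ((i1 a s).2 h')), mul_zero]
  · unfold guess outer MS
    rw [fin_eq (A := A) (B := B) hA (fun s => a < |X T t s| ∧ |X T t s| ≤ 2 ^ q * 4 ^ J)
      (fun s hs => by
        have h3 := (i1 _ s).1 hs.2
        rw [i3] at h3
        exact hnear _ h2 s h3)]
    congr 2
    refine Finset.sum_congr rfl fun s _ => ?_
    unfold kk mult
    have hre : (zz s - t).re = s.im - t := by
      rw [Complex.sub_re, zz_re, Complex.ofReal_re]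
    have hZ : Z T t s / 2 ^ q = (zz s - t) * W := by
      unfold Z
      rw [hWd]
      push_cast
      field_simp
    rw [hre, hZ]
    by_cases h : a < |X T t s| ∧ |X T t s| ≤ 2 ^ q * 4 ^ J
    · have h3 := (i1 _ s).1 h.2
      rw [i3] at h3
      rw [if_pos h, if_pos ⟨(i2 a s).1 h.1, h3⟩]
    · rw [if_neg h, if_neg, mul_zero]
      rintro ⟨h3, h4⟩
      apply h
      refine ⟨(i2 a s).2 h3, (i1 _ s).2 ?_⟩
      rw [i3]
      exact h4

lemma comb (J : ℕ) (hJ : 1 ≤ J) {b l U1 U2 W : ℝ} (t : ℝ) (hU : 1 ≤ U1) (hW : 0 < W)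
    (hWd : W = l / (2 * Real.pi)) (hbW : b ≤ W / 2) (hJW : 4 ^ J ≤ W / 2) (c : ℝ) :
    |NS (Zf riemannZeta U1 U2) b W t - (c - (MS (Zf riemannZeta U1 U2) J b W t).re)| ≤
      |2 * (HT J l U1 U2 t).re - c| + Lin (Zf riemannZeta U1 U2)
        (fun s => (mult riemannZeta s : ℝ) * Real.exp (5 * (|s.re - 1 / 2| * W))) (fun s => s.im) W
        (kmaj J b W) t := by
  set S := Zf riemannZeta U1 U2 with hS
  set R : ℂ := ∑ s ∈ S, (mult riemannZeta s : ℂ) * ((kone b ((s.im - t) * W) : ℂ) +
    kk J b W (zz s - t) - cexp (-(zz s - t) ^ 2 / 2) * phiC J ((zz s - t) * W)) with hR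
  have e1 : R = (NS S b W t : ℂ) + MS S J b W t - ((2 * (HT J l U1 U2 t).re : ℝ) : ℂ) := by
    rw [← full J l hU t, hR, ← hS, ← hWd]
    unfold NS MS Lin
    push_cast
    simp only [mul_add, mul_sub, Finset.sum_add_distrib, Finset.sum_sub_distrib]
    congr 1
    refine Finset.sum_congr rfl fun s _ => ?_
    ring
  have e2 : NS S b W t - (c - (MS S J b W t).re) = (2 * (HT J l U1 U2 t).re - c) + R.re := by
    rw [e1]
    simp only [Complex.sub_re, Complex.add_re, Complex.ofReal_re]
    ring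
  rw [e2]
  refine (abs_add_le _ _).trans (add_le_add le_rfl ?_)
  refine (Complex.abs_re_le_norm R).trans ?_
  rw [hR]
  unfold Lin
  refine (norm_sum_le _ _).trans (Finset.sum_le_sum fun s hs => ?_)
  rw [hS, mem_Z hU] at hs
  obtain ⟨⟨_, h1, h2⟩, _, _⟩ := hs
  have hre : (zz s - t).re = s.im - t := by
    rw [Complex.sub_re, zz_re, Complex.ofReal_re]
  have him : (zz s - t).im = -(s.re - 1 / 2) := by
    rw [Complex.sub_im, zz_im, Complex.ofReal_im, sub_zero]
  have him' : |(zz s - t).im| ≤ 1 / 2 := by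
    rw [him, abs_neg, abs_le]
    constructor <;> linarith
  have h3 := pointwise J hJ hW hbW hJW (zz s - t) him'
  have h4 : |(zz s - t).im * W| = |s.re - 1 / 2| * W := by
    rw [him, abs_mul, abs_neg, abs_of_pos hW]
  rw [h4, hre] at h3
  rw [norm_mul, Complex.norm_natCast, mul_assoc]
  exact mul_le_mul_of_nonneg_left h3 (Nat.cast_nonneg _)

lemma NS_int (S : Finset ℂ) (b : ℝ) {W : ℝ} (hW : 0 < W) (u v : ℝ) :
    IntervalIntegrable (NS S b W) volume u v :=
  (Lin_integrable S _ _ hW (kone_int b)).intervalIntegrable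

lemma kk_int (J : ℕ) (b W : ℝ) (w : ℂ) (u v : ℝ) :
    IntegrableOn (fun t : ℝ => kk J b W (w - t)) (Icc u v) := by
  have hpc := phiC_cont J
  set M : Set ℝ := {t : ℝ | b < |(w - t).re * W| ∧ |(w - t).re * W| ≤ 4 ^ J} with hM
  have hc : Continuous fun t : ℝ => |(w - t).re * W| := by fun_prop
  have hms : MeasurableSet M :=
    (measurableSet_lt measurable_const hc.measurable).inter
      (measurableSet_le hc.measurable measurable_const)
  have h1 : (fun t : ℝ => kk J b W (w - t)) = M.indicator fun t : ℝ => phiC J ((w - t) * W) := by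
    funext t
    unfold kk
    by_cases h : b < |(w - t).re * W| ∧ |(w - t).re * W| ≤ 4 ^ J
    · rw [indicator_of_mem (show t ∈ M from h), if_pos h]
    · rw [indicator_of_notMem (show t ∉ M from h), if_neg h]
  rw [h1]
  exact (Continuous.integrableOn_Icc (by fun_prop)).indicator hms

lemma MS_int (S : Finset ℂ) (J : ℕ) (b W : ℝ) {u v : ℝ} (huv : u ≤ v) :
    IntervalIntegrable (fun t => (MS S J b W t).re) volume u v := by
  rw [intervalIntegrable_iff_integrableOn_Icc_of_le huv]
  have h1 : IntegrableOn (fun t => MS S J b W t) (Icc u v) := by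
    unfold MS
    exact integrable_finsetSum _ fun s _ => (kk_int J b W (zz s) u v).const_mul _
  exact h1.re

/-- the trivial bound -/
lemma trivial_bound (q J : ℕ) (hJ : 1 ≤ J) {T a t W C : ℝ} (hT : 10 ≤ T) (ht1 : T ≤ t)
    (ht2 : t ≤ 2 * T) (hW : 0 < W) (hC : 0 ≤ C)
    (hz : ∀ t : ℝ, 3 ≤ t → (NN riemannZeta (t - 1) (t + 1) : ℝ) ≤ C * Real.log t)
    (hWd : W = Real.log T / 2 ^ q / (2 * Real.pi)) (h1 : a / 2 ^ q ≤ W / 2) (h2 : 4 ^ J ≤ W / 2) :
    |(count T a t : ℝ) - guess q J T a t| ≤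
      2 ^ q * cc J + 4 * C * (Real.log T * Real.exp (Real.log T / 4)) := by
  have hpi := Real.pi_pos
  have hcc := cc_nonneg J
  have hL : 0 < Real.log T := Real.log_pos (by linarith)
  have hA : 1 ≤ t - 1 := by linarith
  obtain ⟨e1, e2⟩ := conv q J (T := T) (a := a) (t := t) (A := t - 1) (B := t + 1) hA hW hWd h1 h2
    (fun x hx => by rw [abs_le] at hx; constructor <;> linarith [hx.1, hx.2])
  rw [e1, e2]
  set S := Zf riemannZeta (t - 1) (t + 1) with hS
  have hsum : ∑ s ∈ S, (mult riemannZeta s : ℝ) ≤ 2 * C * Real.log T := by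
    have h3 := hz t (by linarith)
    rw [NN_eq good_zeta hA] at h3
    push_cast at h3
    refine h3.trans ?_
    have h4 : Real.log t ≤ 2 * Real.log T := by
      calc Real.log t ≤ Real.log (T ^ 2) := Real.log_le_log (by linarith) (by nlinarith)
        _ = 2 * Real.log T := by rw [Real.log_pow]; push_cast; ring
    calc C * Real.log t ≤ C * (2 * Real.log T) := mul_le_mul_of_nonneg_left h4 hC
      _ = _ := by ring
  have hsum0 : 0 ≤ ∑ s ∈ S, (mult riemannZeta s : ℝ) := Finset.sum_nonneg fun _ _ => Nat.cast_nonneg _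
  have hE1 : 1 ≤ Real.exp (Real.log T / 4) := Real.one_le_exp (by positivity)
  have hN0 : 0 ≤ NS S (a / 2 ^ q) W t := by
    unfold NS
    exact Lin_nonneg _ (fun _ => Nat.cast_nonneg _) _ _ (kone_nonneg _) _
  have hN : NS S (a / 2 ^ q) W t ≤ ∑ s ∈ S, (mult riemannZeta s : ℝ) := by
    unfold NS Lin
    refine Finset.sum_le_sum fun s _ => ?_
    have h5 : kone (a / 2 ^ q) ((s.im - t) * W) ≤ 1 := by unfold kone; split_ifs <;> norm_num
    calc (mult riemannZeta s : ℝ) * kone (a / 2 ^ q) ((s.im - t) * W) ≤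
        (mult riemannZeta s : ℝ) * 1 := mul_le_mul_of_nonneg_left h5 (Nat.cast_nonneg _)
      _ = _ := mul_one _
  have hM : ‖MS S J (a / 2 ^ q) W t‖ ≤
      (∑ s ∈ S, (mult riemannZeta s : ℝ)) * Real.exp (Real.log T / 4) := by
    unfold MS
    rw [Finset.sum_mul]
    refine (norm_sum_le _ _).trans (Finset.sum_le_sum fun s hs => ?_)
    rw [hS, mem_Z hA] at hs
    obtain ⟨⟨_, g1, g2⟩, _, _⟩ := hs
    rw [norm_mul, Complex.norm_natCast]
    apply mul_le_mul_of_nonneg_left _ (Nat.cast_nonneg _)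
    have him : ((zz s - t) * (W : ℂ)).im = -((s.re - 1 / 2) * W) := by
      rw [Complex.im_mul_ofReal, Complex.sub_im, zz_im, Complex.ofReal_im]
      ring
    unfold kk
    split_ifs
    · refine (phiC_le J hJ _).trans (Real.exp_le_exp.2 ?_)
      rw [him, abs_neg, abs_mul, abs_of_pos hW]
      have h6 : |s.re - 1 / 2| ≤ 1 / 2 := by rw [abs_le]; constructor <;> linarith
      have h7 : (1 : ℝ) ≤ 2 ^ q := one_le_pow₀ (by norm_num)
      have h8 : Real.pi * W ≤ Real.log T / 2 := by
        rw [hWd]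
        have : Real.pi * (Real.log T / 2 ^ q / (2 * Real.pi)) = Real.log T / 2 / 2 ^ q := by
          field_simp
        rw [this]
        exact div_le_self (by positivity) h7
      calc Real.pi * (|s.re - 1 / 2| * W) = |s.re - 1 / 2| * (Real.pi * W) := by ring
        _ ≤ 1 / 2 * (Real.log T / 2) := by gcongr
        _ = _ := by ring
    · rw [norm_zero]
      positivity
  have h9 := Complex.abs_re_le_norm (MS S J (a / 2 ^ q) W t)
  have h10 := abs_le.1 (h9.trans hM)
  have h11 : (∑ s ∈ S, (mult riemannZeta s : ℝ)) ≤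
      (∑ s ∈ S, (mult riemannZeta s : ℝ)) * Real.exp (Real.log T / 4) :=
    le_mul_of_one_le_right hsum0 hE1
  have h12 : (∑ s ∈ S, (mult riemannZeta s : ℝ)) * Real.exp (Real.log T / 4) ≤
      2 * C * Real.log T * Real.exp (Real.log T / 4) :=
    mul_le_mul_of_nonneg_right hsum (Real.exp_pos _).le
  have h13 : 0 ≤ (2 : ℝ) ^ q * cc J := by positivity
  rw [abs_le]
  constructor <;> nlinarith [h10.1, h10.2]

theorem main : ∃ C : ℝ, 0 < C ∧ ∃ q : ℕ, ∀ a : ℝ, 0 ≤ a → ∀ J : ℕ, 1 ≤ J → ∃ T0 : ℝ, 10 ≤ T0 ∧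
    ∀ T : ℝ, T0 ≤ T →
      IntervalIntegrable (fun t => (count T a t : ℝ) - guess q J T a t) volume T (2 * T) ∧
      ∫ t in T..(2 * T), |(count T a t : ℝ) - guess q J T a t| ≤
        C * (1 / Real.sqrt J + a ^ 3 / J) * T := by
  classical
  obtain ⟨κ, CE, T1, hκ0, hκ1, hCE, hT1, hexp⟩ := expmom
  obtain ⟨C6, hC6, hA⟩ := claimA
  obtain ⟨C7, hC7, hz⟩ := H370.zcount good_zeta
  obtain ⟨q, hq⟩ := pow_unbounded_of_one_lt (1 / κ) (one_lt_two : (1 : ℝ) < 2)
  have hpi := Real.pi_pos
  have h2q1 : (1 : ℝ) ≤ 2 ^ q := one_le_pow₀ (by norm_num)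
  have h2q : (0 : ℝ) < 2 ^ q := by positivity
  have hκq : 1 ≤ κ * 2 ^ q := by
    rw [div_lt_iff₀ hκ0] at hq
    linarith
  set lam : ℝ := 2 ^ q with hlam
  refine ⟨C6 + 2 + 2 * Real.pi * lam * CE * 126, by positivity, q, fun a ha J hJ => ?_⟩
  have hJ' : (0 : ℝ) < J := by exact_mod_cast hJ
  have hJ1 : (1 : ℝ) ≤ J := by exact_mod_cast hJ
  have hsJ : 1 ≤ Real.sqrt J := Real.one_le_sqrt.2 hJ1
  have hsJJ : Real.sqrt J ≤ J := by
    rw [Real.sqrt_le_left hJ'.le]
    nlinarith
  have hcc := cc_nonneg J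
  obtain ⟨T2, hT2, hA2⟩ := hA lam h2q1 J hJ (1 / Real.sqrt J) (by positivity)
  obtain ⟨T3, hT3⟩ := (Real.tendsto_log_atTop.eventually_ge_atTop
    (2 * Real.pi * (2 * a + 2 * lam * 4 ^ J) + 2)).exists_forall_of_atTop
  set K : ℝ := 16 * (lam * cc J) + 512 * C7 with hK
  have hK0 : 0 < K := by positivity
  obtain ⟨T4, hT4⟩ := (Real.tendsto_log_atTop.eventually_ge_atTop
    (2 * Real.log (K * Real.sqrt J))).exists_forall_of_atTop
  refine ⟨max (max T1 T2) (max T3 T4), hT1.trans ((le_max_left _ _).trans (le_max_left _ _)),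
    fun T hT => ?_⟩
  have k1 : T1 ≤ T := ((le_max_left _ _).trans (le_max_left _ _)).trans hT
  have k2 : T2 ≤ T := ((le_max_right _ _).trans (le_max_left _ _)).trans hT
  have k3 : T3 ≤ T := ((le_max_left _ _).trans (le_max_right _ _)).trans hT
  have k4 : T4 ≤ T := ((le_max_right _ _).trans (le_max_right _ _)).trans hT
  have hT10 : 10 ≤ T := hT1.trans k1
  have hT0 : 0 < T := by linarith
  have hl3 := hT3 T k3
  have hl4 := hT4 T k4
  set L := Real.log T with hL
  have hL0 : 0 < L := Real.log_pos (by linarith)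
  have hTe : T = Real.exp L := (Real.exp_log hT0).symm
  have h4J : (1 : ℝ) ≤ 4 ^ J := one_le_pow₀ (by norm_num)
  have hL2 : 2 ≤ L := by
    refine le_trans ?_ hl3
    have : 0 ≤ 2 * Real.pi * (2 * a + 2 * lam * 4 ^ J) := by positivity
    linarith
  set W := L / lam / (2 * Real.pi) with hWdef
  have hW0 : 0 < W := by positivity
  have hWa : a / lam ≤ W / 2 ∧ (4 : ℝ) ^ J ≤ W / 2 := by
    have e1 : W / 2 = L / (4 * Real.pi) / lam := by rw [hWdef]; field_simp; norm_num
    have e2 : a + lam * 4 ^ J ≤ L / (4 * Real.pi) := by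
      rw [le_div_iff₀ (by positivity)]
      linarith
    have e3 : 0 ≤ lam * (4 : ℝ) ^ J := by positivity
    rw [e1]
    constructor
    · exact div_le_div_of_nonneg_right (by linarith) h2q.le
    · rw [le_div_iff₀ h2q]
      linarith
  obtain ⟨hWa1, hWJ⟩ := hWa
  set b := a / lam with hb
  have hb0 : 0 ≤ b := by positivity
  have hba : b ≤ a := div_le_self ha h2q1
  have h5W : 5 * W ≤ κ * L := by
    have e1 : 5 * W = L * (5 / (2 * Real.pi) / lam) := by rw [hWdef]; field_simp
    have e2 : 5 / (2 * Real.pi) ≤ 1 := by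
      rw [div_le_one (by positivity)]
      linarith [Real.pi_gt_three]
    have e3 : 5 / (2 * Real.pi) / lam ≤ κ := by
      rw [div_le_iff₀ h2q]
      linarith
    rw [e1]
    calc L * (5 / (2 * Real.pi) / lam) ≤ L * κ := mul_le_mul_of_nonneg_left e3 hL0.le
      _ = κ * L := mul_comm _ _
  obtain ⟨U1, U2, hU1, hU2, hU3, hU4, hTL, hAint⟩ := hA2 T k2
  have hU : 1 ≤ U1 := by linarith
  -- the integrability
  have hconvI : ∀ t ∈ Icc T (2 * T), (count T a t : ℝ) - guess q J T a t =
      NS (Zf riemannZeta (T - 1) (2 * T + 1)) b W t -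
        (lam * cc J - (MS (Zf riemannZeta (T - 1) (2 * T + 1)) J b W t).re) := by
    intro t ht
    obtain ⟨e1, e2⟩ := conv q J (T := T) (a := a) (t := t) (A := T - 1) (B := 2 * T + 1)
      (W := W) (by linarith) hW0 rfl hWa1 hWJ
      (fun x hx => by
        rw [abs_le] at hx
        constructor <;> linarith [hx.1, hx.2, ht.1, ht.2])
    rw [e1, e2]
  have hI : IntervalIntegrable (fun t => (count T a t : ℝ) - guess q J T a t) volume T (2 * T) := by
    have h1 : IntervalIntegrable (fun t => NS (Zf riemannZeta (T - 1) (2 * T + 1)) b W t -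
        (lam * cc J - (MS (Zf riemannZeta (T - 1) (2 * T + 1)) J b W t).re)) volume T (2 * T) :=
      (NS_int _ _ hW0 _ _).sub (intervalIntegrable_const.sub (MS_int _ _ _ _ (by linarith)))
    refine h1.congr ?_
    intro t ht
    rw [uIoc_of_le (by linarith)] at ht
    exact (hconvI t ⟨ht.1.le, ht.2⟩).symm
  refine ⟨hI, ?_⟩
  have hIa := hI.abs
  have hsub : ∀ u v : ℝ, T ≤ u → u ≤ v → v ≤ 2 * T → IntervalIntegrable
      (fun t => |(count T a t : ℝ) - guess q J T a t|) volume u v := by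
    intro u v hu huv hv
    refine hIa.mono_set ?_
    rw [uIcc_of_le huv, uIcc_of_le (by linarith)]
    exact Icc_subset_Icc hu hv
  -- the middle part
  have hmid : ∫ t in (T + L)..(2 * T - L), |(count T a t : ℝ) - guess q J T a t| ≤
      (C6 / Real.sqrt J + 1 / Real.sqrt J) * T +
        2 * Real.pi * lam * CE * (126 * (1 + a ^ 3) / J) * T := by
    set S := Zf riemannZeta U1 U2 with hS
    set m' : ℂ → ℝ := fun s => (mult riemannZeta s : ℝ) * Real.exp (5 * (|s.re - 1 / 2| * W))
      with hm'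
    have hLI := Lin_integrable S m' (fun s => s.im) hW0 (kmaj_int J b W)
    have hHc := HT_re_cont J (L / lam) (U2 := U2) hU
    have hpt : ∀ t ∈ Icc (T + L) (2 * T - L), |(count T a t : ℝ) - guess q J T a t| ≤
        |2 * (HT J (L / lam) U1 U2 t).re - lam * cc J| +
          Lin S m' (fun s => s.im) W (kmaj J b W) t := by
      intro t ht
      obtain ⟨e1, e2⟩ := conv q J (T := T) (a := a) (t := t) (A := U1) (B := U2)
        (W := W) hU hW0 rfl hWa1 hWJ
        (fun x hx => by
          rw [abs_le] at hx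
          constructor <;> linarith [hx.1, hx.2, ht.1, ht.2])
      rw [e1, e2]
      exact comb J hJ t hU hW0 rfl hWa1 hWJ (lam * cc J)
    have h1 : ∫ t in (T + L)..(2 * T - L), |(count T a t : ℝ) - guess q J T a t| ≤
        ∫ t in (T + L)..(2 * T - L), (|2 * (HT J (L / lam) U1 U2 t).re - lam * cc J| +
          Lin S m' (fun s => s.im) W (kmaj J b W) t) := by
      refine intervalIntegral.integral_mono_on hTL
        (hsub _ _ (by linarith) hTL (by linarith)) ?_ hpt
      exact (Continuous.intervalIntegrable (by fun_prop) _ _).add hLI.intervalIntegrable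
    rw [intervalIntegral.integral_add (Continuous.intervalIntegrable (by fun_prop) _ _)
      hLI.intervalIntegrable] at h1
    refine h1.trans (add_le_add ?_ ?_)
    · exact hAint
    · have h2 : ∫ t in (T + L)..(2 * T - L), Lin S m' (fun s => s.im) W (kmaj J b W) t ≤
          ∫ t, Lin S m' (fun s => s.im) W (kmaj J b W) t := by
        rw [intervalIntegral.integral_of_le hTL]
        refine setIntegral_le_integral hLI (Eventually.of_forall ?_)
        exact Lin_nonneg _ (fun _ => by positivity) _ _ (kmaj_nonneg J b W)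
      refine h2.trans ?_
      rw [Lin_integral S m' _ hW0 (kmaj_int J b W)]
      have h3 : ∑ s ∈ S, m' s ≤ CE * (T * L) := by
        refine le_trans ?_ (hexp T k1)
        have hsubS : S ⊆ Zf riemannZeta T (2 * T) := by
          intro s hs
          rw [hS, mem_Z hU] at hs
          rw [mem_Z (by linarith)]
          exact ⟨hs.1, by linarith [hs.2.1], by linarith [hs.2.2]⟩
        refine le_trans ?_ (Finset.sum_le_sum_of_subset_of_nonneg hsubS fun s _ _ =>
          mul_nonneg (Nat.cast_nonneg _) (Real.exp_pos _).le)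
        refine Finset.sum_le_sum fun s _ => ?_
        rw [hm']
        apply mul_le_mul_of_nonneg_left _ (Nat.cast_nonneg _)
        unfold ew
        apply Real.exp_le_exp.2
        calc 5 * (|s.re - 1 / 2| * W) = |s.re - 1 / 2| * (5 * W) := by ring
          _ ≤ |s.re - 1 / 2| * (κ * L) := mul_le_mul_of_nonneg_left h5W (abs_nonneg _)
          _ = _ := by ring
      have h4 := kmaj_bound J hJ hb0 hba (W := W) (by linarith)
      have h5 : 0 ≤ ∫ x, kmaj J b W x := integral_nonneg (kmaj_nonneg J b W)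
      have h6 : 0 ≤ 126 * (1 + a ^ 3) / (J : ℝ) := by positivity
      rw [div_le_iff₀ hW0]
      calc (∑ s ∈ S, m' s) * ∫ x, kmaj J b W x ≤ (CE * (T * L)) * (126 * (1 + a ^ 3) / J) :=
            mul_le_mul h3 h4 h5 (by positivity)
        _ = 2 * Real.pi * lam * CE * (126 * (1 + a ^ 3) / J) * T * W := by
            have : L = 2 * Real.pi * lam * W := by rw [hWdef]; field_simp
            rw [this]
            ring
  -- the edges
  have hedge : ∀ t ∈ Icc T (2 * T), |(count T a t : ℝ) - guess q J T a t| ≤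
      lam * cc J + 4 * C7 * (L * Real.exp (L / 4)) := fun t ht =>
    trivial_bound q J hJ hT10 ht.1 ht.2 hW0 hC7.le hz rfl hWa1 hWJ
  set M := lam * cc J + 4 * C7 * (L * Real.exp (L / 4)) with hM
  have hM0 : 0 ≤ M := by positivity
  have hed : ∀ u : ℝ, T ≤ u → u + L ≤ 2 * T →
      ∫ t in u..(u + L), |(count T a t : ℝ) - guess q J T a t| ≤ L * M := by
    intro u hu1 hu2
    calc ∫ t in u..(u + L), |(count T a t : ℝ) - guess q J T a t| ≤ ∫ t in u..(u + L), M := by
          refine intervalIntegral.integral_mono_on (by linarith)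
            (hsub _ _ hu1 (by linarith) hu2) intervalIntegrable_const fun t ht => ?_
          exact hedge t ⟨hu1.trans ht.1, ht.2.trans hu2⟩
      _ = L * M := by
          rw [intervalIntegral.integral_const, smul_eq_mul]
          ring
  have hed1 := hed T le_rfl (by linarith)
  have hed2 := hed (2 * T - L) (by linarith) (by linarith)
  rw [sub_add_cancel] at hed2
  have hLM : 2 * (L * M) ≤ 1 / Real.sqrt J * T := by
    have e1 : L ≤ 8 * Real.exp (L / 8) := by
      have := Real.add_one_le_exp (L / 8)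
      linarith
    have e2 : Real.exp (L / 8) ≤ Real.exp (L / 2) := Real.exp_le_exp.2 (by linarith)
    have e3 : L * L ≤ 64 * Real.exp (L / 4) := by
      have : Real.exp (L / 4) = Real.exp (L / 8) * Real.exp (L / 8) := by
        rw [← Real.exp_add]; congr 1; ring
      rw [this]
      nlinarith
    have e4 : Real.exp (L / 4) * Real.exp (L / 4) = Real.exp (L / 2) := by
      rw [← Real.exp_add]; congr 1; ring
    have e5 : 2 * (L * M) ≤ K * Real.exp (L / 2) := by
      rw [hM, hK]
      have f1 : 2 * L * (lam * cc J) ≤ 16 * Real.exp (L / 2) * (lam * cc J) := by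
        apply mul_le_mul_of_nonneg_right _ (by positivity)
        linarith
      have f2 : 8 * C7 * (L * L) * Real.exp (L / 4) ≤
          8 * C7 * (64 * Real.exp (L / 4)) * Real.exp (L / 4) := by gcongr
      have f3 : 8 * C7 * (64 * Real.exp (L / 4)) * Real.exp (L / 4) =
          512 * C7 * Real.exp (L / 2) := by
        rw [← e4]; ring
      calc 2 * (L * (lam * cc J + 4 * C7 * (L * Real.exp (L / 4)))) =
          2 * L * (lam * cc J) + 8 * C7 * (L * L) * Real.exp (L / 4) := by ring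
        _ ≤ 16 * Real.exp (L / 2) * (lam * cc J) + 512 * C7 * Real.exp (L / 2) :=
            add_le_add f1 (f2.trans_eq f3)
        _ = _ := by ring
    have e6 : K * Real.sqrt J ≤ Real.exp (L / 2) := by
      have : K * Real.sqrt J = Real.exp (Real.log (K * Real.sqrt J)) :=
        (Real.exp_log (by positivity)).symm
      rw [this]
      exact Real.exp_le_exp.2 (by linarith)
    have e7 : T = Real.exp (L / 2) * Real.exp (L / 2) := by
      rw [← Real.exp_add, add_halves]
      exact hTe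
    rw [one_div_mul_eq_div, le_div_iff₀ (by positivity)]
    calc 2 * (L * M) * Real.sqrt J ≤ K * Real.exp (L / 2) * Real.sqrt J := by gcongr
      _ = K * Real.sqrt J * Real.exp (L / 2) := by ring
      _ ≤ Real.exp (L / 2) * Real.exp (L / 2) := by gcongr
      _ = T := e7.symm
  -- the sum
  have hsplit : ∫ t in T..(2 * T), |(count T a t : ℝ) - guess q J T a t| =
      (∫ t in T..(T + L), |(count T a t : ℝ) - guess q J T a t|) +
      (∫ t in (T + L)..(2 * T - L), |(count T a t : ℝ) - guess q J T a t|) +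
      ∫ t in (2 * T - L)..(2 * T), |(count T a t : ℝ) - guess q J T a t| := by
    rw [intervalIntegral.integral_add_adjacent_intervals (hsub _ _ le_rfl (by linarith) (by linarith))
      (hsub _ _ (by linarith) hTL (by linarith)),
      intervalIntegral.integral_add_adjacent_intervals (hsub _ _ le_rfl (by linarith) (by linarith))
      (hsub _ _ (by linarith) (by linarith) le_rfl)]
  have ha3 : 0 ≤ a ^ 3 := by positivity
  have hJs : 1 / (J : ℝ) ≤ 1 / Real.sqrt J :=
    one_div_le_one_div_of_le (by positivity) hsJJ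
  have hJs2 : 126 * (1 + a ^ 3) / (J : ℝ) ≤ 126 * (1 / Real.sqrt J + a ^ 3 / J) := by
    calc 126 * (1 + a ^ 3) / (J : ℝ) = 126 * (1 / J + a ^ 3 / J) := by ring
      _ ≤ _ := by gcongr
  rw [hsplit]
  calc _ ≤ L * M + ((C6 / Real.sqrt J + 1 / Real.sqrt J) * T +
        2 * Real.pi * lam * CE * (126 * (1 + a ^ 3) / J) * T) + L * M :=
        add_le_add (add_le_add hed1 hmid) hed2
    _ ≤ 1 / Real.sqrt J * T + ((C6 / Real.sqrt J + 1 / Real.sqrt J) * T +
        2 * Real.pi * lam * CE * (126 * (1 / Real.sqrt J + a ^ 3 / J)) * T) := by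
        have : 2 * Real.pi * lam * CE * (126 * (1 + a ^ 3) / J) * T ≤
            2 * Real.pi * lam * CE * (126 * (1 / Real.sqrt J + a ^ 3 / J)) * T := by gcongr
        linarith
    _ = ((C6 + 2) * (1 / Real.sqrt J) + 2 * Real.pi * lam * CE * 126 *
        (1 / Real.sqrt J + a ^ 3 / J)) * T := by ring
    _ ≤ (C6 + 2 + 2 * Real.pi * lam * CE * 126) * (1 / Real.sqrt J + a ^ 3 / J) * T := by
        apply mul_le_mul_of_nonneg_right _ hT0.le
        have : 0 ≤ (C6 + 2) * (a ^ 3 / J) := by positivity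
        linarith

/-- Markov: the nearest integer to the guess is the count, for most `t` -/
lemma markov (q J : ℕ) {T a κ : ℝ} (hT : 0 ≤ T)
    (hI : IntervalIntegrable (fun t => (count T a t : ℝ) - guess q J T a t) volume T (2 * T))
    (hB : ∫ t in T..(2 * T), |(count T a t : ℝ) - guess q J T a t| ≤ κ * T) :
    volume {t : ℝ | T ≤ t ∧ t ≤ 2 * T ∧ round (guess q J T a t) ≠ (count T a t : ℤ)} ≤
      ENNReal.ofReal (2 * (κ * T)) := by
  have hle : T ≤ 2 * T := by linarith
  set f : ℝ → ℝ := fun t => |(count T a t : ℝ) - guess q J T a t| with hf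
  have hfi : IntegrableOn f (Icc T (2 * T)) := by
    have := hI.abs
    rwa [intervalIntegrable_iff_integrableOn_Icc_of_le hle] at this
  have hm := mul_meas_ge_le_integral_of_nonneg (μ := volume.restrict (Icc T (2 * T)))
    (Eventually.of_forall fun t => abs_nonneg _ : 0 ≤ᵐ[volume.restrict (Icc T (2 * T))] f) hfi
    (1 / 2)
  have hsub : {t : ℝ | T ≤ t ∧ t ≤ 2 * T ∧ round (guess q J T a t) ≠ (count T a t : ℤ)} ⊆
      {t | 1 / 2 ≤ f t} ∩ Icc T (2 * T) := by
    rintro t ⟨ht1, ht1', ht2⟩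
    refine ⟨?_, ht1, ht1'⟩
    by_contra hcon
    simp only [mem_ofPred_eq, not_le, hf] at hcon
    apply ht2
    rw [round_eq, Int.floor_eq_iff]
    rw [abs_lt] at hcon
    push_cast
    constructor <;> linarith [hcon.1, hcon.2]
  have hfin : volume.restrict (Icc T (2 * T)) {t | 1 / 2 ≤ f t} ≠ ⊤ := by
    refine ((measure_mono (subset_univ _)).trans_lt ?_).ne
    rw [Measure.restrict_apply_univ, Real.volume_Icc]
    exact ENNReal.ofReal_lt_top
  have hint : ∫ t in Icc T (2 * T), f t ≤ κ * T := by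
    rw [integral_Icc_eq_integral_Ioc, ← intervalIntegral.integral_of_le hle]
    exact hB
  calc volume {t : ℝ | T ≤ t ∧ t ≤ 2 * T ∧ round (guess q J T a t) ≠ (count T a t : ℤ)} ≤
      volume ({t | 1 / 2 ≤ f t} ∩ Icc T (2 * T)) := measure_mono hsub
    _ = volume.restrict (Icc T (2 * T)) {t | 1 / 2 ≤ f t} :=
        (Measure.restrict_apply' measurableSet_Icc).symm
    _ = ENNReal.ofReal ((volume.restrict (Icc T (2 * T))).real {t | 1 / 2 ≤ f t}) := by
        rw [Measure.real, ENNReal.ofReal_toReal hfin]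
    _ ≤ ENNReal.ofReal (2 * (κ * T)) := by
        apply ENNReal.ofReal_le_ofReal
        linarith

end Pool.Agent.TH850.UR
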