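import Pool.Agent.TH850.NR.Four

set_option autoImplicit false

/-! # The averages of Fejer kernels at complex arguments -/

namespace Pool.Agent.TH850.UR

open Complex Filter Topology MeasureTheory Set
open Pool.Agent.TH850.NR

/-- the Fejer kernel `(sin z / z) ^ 2` -/
noncomputable def fej (z : ℂ) : ℂ := if z = 0 then 1 else (Complex.sin z / z) ^ 2

/-- the average of the Fejer kernels on the scales `2, 4, …, 2 ^ J` -/
noncomputable def phiC (J : ℕ) (z : ℂ) : ℂ :=
  (∑ j ∈ Finset.Icc 1 J, fej (Real.pi * z / 2 ^ j)) / J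

lemma norm_cexp_le (v : ℂ) : ‖cexp v‖ ≤ Real.exp |v.re| := by
  rw [Complex.norm_exp]
  exact Real.exp_le_exp.2 (le_abs_self _)

lemma norm_cos_le (v : ℂ) : ‖Complex.cos v‖ ≤ Real.exp |v.im| := by
  unfold Complex.cos
  rw [norm_div]
  have h1 : ‖cexp (v * I)‖ ≤ Real.exp |v.im| := by
    refine (norm_cexp_le _).trans_eq ?_
    simp
  have h2 : ‖cexp (-v * I)‖ ≤ Real.exp |v.im| := by
    refine (norm_cexp_le _).trans_eq ?_
    simp
  have h3 := norm_add_le (cexp (v * I)) (cexp (-v * I))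
  have h4 : ‖(2 : ℂ)‖ = 2 := by simp
  rw [h4, div_le_iff₀ (by norm_num)]
  linarith

lemma norm_sin_le (v : ℂ) : ‖Complex.sin v‖ ≤ Real.exp |v.im| := by
  unfold Complex.sin
  rw [norm_div, norm_mul, Complex.norm_I, mul_one]
  have h1 : ‖cexp (v * I)‖ ≤ Real.exp |v.im| := by
    refine (norm_cexp_le _).trans_eq ?_
    simp
  have h2 : ‖cexp (-v * I)‖ ≤ Real.exp |v.im| := by
    refine (norm_cexp_le _).trans_eq ?_
    simp
  have h3 := norm_sub_le (cexp (-v * I)) (cexp (v * I))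
  have h4 : ‖(2 : ℂ)‖ = 2 := by simp
  rw [h4, div_le_iff₀ (by norm_num)]
  linarith

/-- `|sin v| ≤ |v| e^|Im v|` -/
lemma norm_sin_le' (v : ℂ) : ‖Complex.sin v‖ ≤ ‖v‖ * Real.exp |v.im| := by
  have hconv : Convex ℝ {w : ℂ | |w.im| ≤ |v.im|} := by
    have : {w : ℂ | |w.im| ≤ |v.im|} = Complex.imLm ⁻¹' (Icc (-|v.im|) |v.im|) := by
      ext w
      simp [abs_le]
    rw [this]
    exact (convex_Icc _ _).linear_preimage _
  have h := hconv.norm_image_sub_le_of_norm_hasDerivWithin_le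
    (f := Complex.sin) (f' := Complex.cos) (C := Real.exp |v.im|) (x := 0) (y := v)
    (fun w _ => (Complex.hasDerivAt_sin w).hasDerivWithinAt)
    (fun w hw => (norm_cos_le w).trans (Real.exp_le_exp.2 hw))
    (show |(0 : ℂ).im| ≤ |v.im| by simp) (show |v.im| ≤ |v.im| from le_rfl)
  rw [Complex.sin_zero, sub_zero, sub_zero] at h
  linarith

/-- `|1 - cos v| ≤ |v| ^ 2 e^|Im v| / 2` -/
lemma norm_one_sub_cos (v : ℂ) : ‖1 - Complex.cos v‖ ≤ ‖v‖ ^ 2 / 2 * Real.exp |v.im| := by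
  have h1 : 1 - Complex.cos v = 2 * Complex.sin (v / 2) ^ 2 := by
    have h := Complex.cos_two_mul' (v / 2)
    have h2 := Complex.sin_sq_add_cos_sq (v / 2)
    rw [mul_div_cancel₀ v (by norm_num : (2 : ℂ) ≠ 0)] at h
    rw [h]
    linear_combination (-1 : ℂ) * h2
  have h2 := norm_sin_le' (v / 2)
  have h3 : ‖v / 2‖ = ‖v‖ / 2 := by rw [norm_div]; simp
  have h4 : |(v / 2).im| = |v.im| / 2 := by
    have : (v / 2).im = v.im / 2 := by simp
    rw [this, abs_div, abs_of_pos (by norm_num : (0 : ℝ) < 2)]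
  rw [h3, h4] at h2
  rw [h1, norm_mul, norm_pow, Complex.norm_ofNat]
  have h5 : Real.exp |v.im| = Real.exp (|v.im| / 2) ^ 2 := by
    rw [← Real.exp_nat_mul]; congr 1; push_cast; ring
  rw [h5]
  have h6 : 0 ≤ ‖Complex.sin (v / 2)‖ := norm_nonneg _
  calc 2 * ‖Complex.sin (v / 2)‖ ^ 2 ≤ 2 * (‖v‖ / 2 * Real.exp (|v.im| / 2)) ^ 2 := by gcongr
    _ = _ := by ring

lemma int_symC (g : ℝ → ℂ) (hg : Continuous g) (μ : ℝ) :
    ∫ α in (-μ)..μ, g α = ∫ α in (0 : ℝ)..μ, (g α + g (-α)) := by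
  rw [← intervalIntegral.integral_add_adjacent_intervals (b := 0) (hg.intervalIntegrable _ _)
    (hg.intervalIntegrable _ _)]
  have h5 : ∫ α in (-μ)..0, g α = ∫ α in (0 : ℝ)..μ, g (-α) := by
    have := intervalIntegral.integral_comp_neg (a := (0 : ℝ)) (b := μ) g
    rw [neg_zero] at this
    exact this.symm
  have hg2 : Continuous fun α : ℝ => g (-α) := hg.comp continuous_neg
  rw [h5, intervalIntegral.integral_add (hg.intervalIntegrable _ _)
    (hg2.intervalIntegrable _ _)]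
  ring

lemma one_scaleC (s : ℝ) (hs : 2 ≤ s) (z : ℂ) :
    ∫ α in (-(1 / 2 : ℝ))..(1 / 2), ((s * max 0 (1 - s * |α|) : ℝ) : ℂ) *
      Complex.cos (2 * Real.pi * α * z) = fej (Real.pi * z / s) := by
  have hpi := Real.pi_pos
  have hpiC : (Real.pi : ℂ) ≠ 0 := by exact_mod_cast hpi.ne'
  have hs0 : 0 < s := by linarith
  have hsC : (s : ℂ) ≠ 0 := by exact_mod_cast hs0.ne'
  have h1s : 1 / s ≤ 1 / 2 := one_div_le_one_div_of_le (by norm_num) hs
  have h1s0 : 0 < 1 / s := by positivity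
  rw [int_symC (fun α => ((s * max 0 (1 - s * |α|) : ℝ) : ℂ) *
    Complex.cos (2 * Real.pi * α * z)) (by fun_prop)]
  have e1 : ∀ α ∈ Set.uIcc (0 : ℝ) (1 / 2), ((s * max 0 (1 - s * |α|) : ℝ) : ℂ) *
      Complex.cos (2 * Real.pi * α * z) +
      ((s * max 0 (1 - s * |-α|) : ℝ) : ℂ) * Complex.cos (2 * Real.pi * ((-α : ℝ) : ℂ) * z) =
      2 * (((s * max 0 (1 - s * α) : ℝ) : ℂ) * Complex.cos (2 * Real.pi * z * α)) := by
    intro α hα
    rw [Set.uIcc_of_le (by norm_num)] at hα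
    rw [abs_neg, abs_of_nonneg hα.1]
    have e2 : (2 * Real.pi * ((-α : ℝ) : ℂ) * z : ℂ) = -(2 * Real.pi * z * α) := by
      push_cast; ring
    rw [e2, Complex.cos_neg, show (2 * Real.pi * α * z : ℂ) = 2 * Real.pi * z * α by ring]
    ring
  rw [intervalIntegral.integral_congr e1]
  have hc : Continuous fun α : ℝ => 2 * (((s * max 0 (1 - s * α) : ℝ) : ℂ) *
      Complex.cos (2 * Real.pi * z * α)) := by
    fun_prop
  rw [← intervalIntegral.integral_add_adjacent_intervals (b := 1 / s) (hc.intervalIntegrable _ _)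
    (hc.intervalIntegrable _ _)]
  have e2 : ∫ α in (1 / s)..(1 / 2), 2 * (((s * max 0 (1 - s * α) : ℝ) : ℂ) *
      Complex.cos (2 * Real.pi * z * α)) = 0 := by
    rw [intervalIntegral.integral_congr (g := fun _ => 0)]
    · simp
    · intro α hα
      rw [Set.uIcc_of_le h1s] at hα
      have : 1 - s * α ≤ 0 := by
        have := hα.1
        rw [div_le_iff₀ hs0] at this
        linarith
      show 2 * (((s * max 0 (1 - s * α) : ℝ) : ℂ) * Complex.cos (2 * Real.pi * z * α)) = 0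
      rw [max_eq_left this]
      simp
  have e3 : ∫ α in (0 : ℝ)..(1 / s), 2 * (((s * max 0 (1 - s * α) : ℝ) : ℂ) *
      Complex.cos (2 * Real.pi * z * α)) =
      ∫ α in (0 : ℝ)..(1 / s), 2 * ((s * (1 - s * α) : ℂ) * Complex.cos (2 * Real.pi * z * α)) := by
    refine intervalIntegral.integral_congr fun α hα => ?_
    rw [Set.uIcc_of_le h1s0.le] at hα
    have : 0 ≤ 1 - s * α := by
      have := hα.2
      rw [le_div_iff₀ hs0] at this
      linarith
    show 2 * (((s * max 0 (1 - s * α) : ℝ) : ℂ) * Complex.cos (2 * Real.pi * z * α)) = _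
    rw [max_eq_right this]
    push_cast
    rfl
  rw [e2, e3, add_zero]
  by_cases hx : z = 0
  · subst hx
    unfold fej
    rw [if_pos (by simp)]
    have hd : ∀ α ∈ Set.uIcc (0 : ℝ) (1 / s), HasDerivAt
        (fun α : ℝ => ((2 * s * α - s ^ 2 * α ^ 2 : ℝ) : ℂ))
        (2 * ((s * (1 - s * α) : ℂ) * Complex.cos (2 * Real.pi * 0 * α))) α := by
      intro α _
      have h : HasDerivAt (fun α : ℝ => 2 * s * α - s ^ 2 * α ^ 2) (2 * (s * (1 - s * α))) α := by
        have h := ((hasDerivAt_id' α).const_mul (2 * s)).sub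
          (((hasDerivAt_id' α).pow 2).const_mul (s ^ 2))
        refine h.congr_deriv ?_
        norm_num
        ring
      refine h.ofReal_comp.congr_deriv ?_
      push_cast
      simp
    rw [intervalIntegral.integral_eq_sub_of_hasDerivAt hd
      (Continuous.intervalIntegrable (by fun_prop) _ _)]
    rw [← Complex.ofReal_sub]
    have : 2 * s * (1 / s) - s ^ 2 * (1 / s) ^ 2 - (2 * s * 0 - s ^ 2 * 0 ^ 2) = 1 := by
      field_simp
      ring
    rw [this, Complex.ofReal_one]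
  · have hk : (2 * Real.pi * z : ℂ) ≠ 0 := by
      exact mul_ne_zero (mul_ne_zero (by norm_num) hpiC) hx
    set k : ℂ := 2 * Real.pi * z with hkdef
    have hd : ∀ α ∈ Set.uIcc (0 : ℝ) (1 / s), HasDerivAt
        (fun α : ℝ => 2 * ((s * (1 - s * α) : ℂ) * (Complex.sin (k * α) / k) -
          (s : ℂ) ^ 2 * (Complex.cos (k * α) / k ^ 2)))
        (2 * ((s * (1 - s * α) : ℂ) * Complex.cos (k * α))) α := by
      intro α _
      have hlin : HasDerivAt (fun z : ℂ => k * z) k (α : ℂ) := by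
        simpa using (hasDerivAt_id' (α : ℂ)).const_mul k
      have hsin := (hlin.csin).div_const k
      have hcos := (hlin.ccos).div_const (k ^ 2)
      have hfac : HasDerivAt (fun z : ℂ => (s : ℂ) * (1 - s * z)) ((s : ℂ) * (-(s * 1))) (α : ℂ) :=
        (((hasDerivAt_id' (α : ℂ)).const_mul (s : ℂ)).const_sub 1).const_mul (s : ℂ)
      have h := (((hfac.mul hsin).sub (hcos.const_mul ((s : ℂ) ^ 2))).const_mul 2).comp_ofReal
      refine h.congr_deriv ?_
      field_simp
      ring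
    rw [intervalIntegral.integral_eq_sub_of_hasDerivAt hd
      (Continuous.intervalIntegrable (by fun_prop) _ _)]
    have hy : (Real.pi * z / s : ℂ) ≠ 0 := div_ne_zero (mul_ne_zero hpiC hx) hsC
    unfold fej
    rw [if_neg hy]
    have h2 : k * ((1 / s : ℝ) : ℂ) = 2 * (Real.pi * z / s) := by
      rw [hkdef]; push_cast; ring
    have h3 : Complex.cos (k * ((1 / s : ℝ) : ℂ)) = 1 - 2 * Complex.sin (Real.pi * z / s) ^ 2 := by
      rw [h2, Complex.cos_two_mul, Complex.cos_sq']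
      ring
    rw [h3]
    have h4 : ((s : ℂ) * (1 - s * ((1 / s : ℝ) : ℂ))) = 0 := by
      push_cast
      field_simp
      ring
    rw [h4]
    simp only [Complex.ofReal_zero, mul_zero, Complex.sin_zero, Complex.cos_zero, zero_div]
    rw [hkdef]
    field_simp
    ring

/-- the Fourier representation with the cosine -/
lemma transC (J : ℕ) (z : ℂ) :
    ∫ α in (-(1 / 2 : ℝ))..(1 / 2), (tri J α : ℂ) * Complex.cos (2 * Real.pi * α * z) =
      phiC J z := by
  unfold tri phiC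
  have h1 : ∀ α : ℝ, (((∑ j ∈ Finset.Icc 1 J, 2 ^ j * max 0 (1 - 2 ^ j * |α|)) / J : ℝ) : ℂ) *
      Complex.cos (2 * Real.pi * α * z) =
      (∑ j ∈ Finset.Icc 1 J, (((2 : ℝ) ^ j * max 0 (1 - (2 : ℝ) ^ j * |α|) : ℝ) : ℂ) *
        Complex.cos (2 * Real.pi * α * z)) / J := by
    intro α
    rw [← Finset.sum_mul]
    push_cast
    ring
  simp_rw [h1]
  rw [intervalIntegral.integral_div, intervalIntegral.integral_finsetSum]
  · congr 1
    refine Finset.sum_congr rfl fun j hj => ?_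
    rw [Finset.mem_Icc] at hj
    have h2 : (2 : ℝ) ≤ 2 ^ j := by
      calc (2 : ℝ) = 2 ^ 1 := by norm_num
        _ ≤ 2 ^ j := pow_le_pow_right₀ (by norm_num) hj.1
    have h3 := one_scaleC (2 ^ j) h2 z
    rw [h3]
    push_cast
    rfl
  · intro j _
    exact Continuous.intervalIntegrable (by fun_prop) _ _

/-- `phiC` is bounded on horizontal strips -/
lemma phiC_le (J : ℕ) (hJ : 1 ≤ J) (z : ℂ) : ‖phiC J z‖ ≤ Real.exp (Real.pi * |z.im|) := by
  have hpi := Real.pi_pos
  have htc := tri_cont J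
  rw [← transC]
  have h1 : ∫ α in (-(1 / 2 : ℝ))..(1 / 2), tri J α = 1 := by
    have h := trans J 0
    rw [phi_zero J hJ] at h
    simpa using h
  calc ‖∫ α in (-(1 / 2 : ℝ))..(1 / 2), (tri J α : ℂ) * Complex.cos (2 * Real.pi * α * z)‖ ≤
      ∫ α in (-(1 / 2 : ℝ))..(1 / 2), ‖(tri J α : ℂ) * Complex.cos (2 * Real.pi * α * z)‖ :=
        intervalIntegral.norm_integral_le_integral_norm (by norm_num)
    _ ≤ ∫ α in (-(1 / 2 : ℝ))..(1 / 2), tri J α * Real.exp (Real.pi * |z.im|) := by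
        refine intervalIntegral.integral_mono_on (by norm_num)
          (Continuous.intervalIntegrable (by fun_prop) _ _)
          (Continuous.intervalIntegrable (by fun_prop) _ _) fun α hα => ?_
        rw [norm_mul, Complex.norm_real, Real.norm_of_nonneg (tri_nonneg J α)]
        apply mul_le_mul_of_nonneg_left _ (tri_nonneg J α)
        refine (norm_cos_le _).trans (Real.exp_le_exp.2 ?_)
        have h2 : (2 * (Real.pi : ℂ) * α * z).im = 2 * Real.pi * α * z.im := by
          have : (2 * (Real.pi : ℂ) * α * z) = ((2 * Real.pi * α : ℝ) : ℂ) * z := by push_cast; ring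
          rw [this, Complex.im_ofReal_mul]
        rw [h2, abs_mul, abs_mul, abs_mul, abs_of_pos hpi, abs_of_pos (by norm_num : (0 : ℝ) < 2)]
        have h3 : |α| ≤ 1 / 2 := abs_le.2 ⟨by linarith [hα.1], hα.2⟩
        have h4 := abs_nonneg z.im
        nlinarith [mul_nonneg hpi.le h4]
    _ = Real.exp (Real.pi * |z.im|) := by
        rw [intervalIntegral.integral_mul_const, h1, one_mul]

/-- decay -/
lemma phiC_decay (J : ℕ) (hJ : 1 ≤ J) (z : ℂ) :
    ‖phiC J z‖ * ‖z‖ ^ 2 ≤ 4 ^ J / (7 * J) * Real.exp (Real.pi * |z.im|) := by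
  have hJ' : (0 : ℝ) < J := by exact_mod_cast hJ
  have hpi : 0 < Real.pi := Real.pi_pos
  set E := Real.exp (Real.pi * |z.im|) with hE
  have hE1 : 1 ≤ E := Real.one_le_exp (by positivity)
  have h1 : ∀ j : ℕ, 1 ≤ j → ‖fej (Real.pi * z / 2 ^ j)‖ * ‖z‖ ^ 2 ≤ 4 ^ j / Real.pi ^ 2 * E := by
    intro j hj
    have h2j : (2 : ℝ) ≤ 2 ^ j := by
      calc (2 : ℝ) = 2 ^ 1 := by norm_num
        _ ≤ 2 ^ j := pow_le_pow_right₀ (by norm_num) hj
    unfold fej
    split_ifs with h0
    · have hz : z = 0 := by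
        have h2 : (2 : ℂ) ^ j ≠ 0 := pow_ne_zero _ (by norm_num)
        have h3 : (Real.pi : ℂ) ≠ 0 := by exact_mod_cast hpi.ne'
        rw [div_eq_zero_iff, mul_eq_zero] at h0
        tauto
      rw [hz]
      simp
      positivity
    · have hz : z ≠ 0 := by
        rintro rfl
        exact h0 (by simp)
      have hz' : 0 < ‖z‖ := norm_pos_iff.2 hz
      rw [norm_pow, norm_div]
      have h2 : ‖(Real.pi * z / 2 ^ j : ℂ)‖ = Real.pi * ‖z‖ / 2 ^ j := by
        rw [norm_div, norm_mul, Complex.norm_real, Real.norm_of_nonneg hpi.le, norm_pow]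
        simp
      have h3 := norm_sin_le (Real.pi * z / 2 ^ j)
      have h4 : (Real.pi * z / 2 ^ j : ℂ).im = Real.pi * z.im / 2 ^ j := by
        have : (Real.pi * z / 2 ^ j : ℂ) = ((Real.pi / 2 ^ j : ℝ) : ℂ) * z := by push_cast; ring
        rw [this, Complex.im_ofReal_mul]
        ring
      have h5 : ‖Complex.sin (Real.pi * z / 2 ^ j)‖ ^ 2 ≤ E := by
        calc ‖Complex.sin (Real.pi * z / 2 ^ j)‖ ^ 2 ≤
            (Real.exp |(Real.pi * z / 2 ^ j : ℂ).im|) ^ 2 := by gcongr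
          _ = Real.exp (2 * (Real.pi * |z.im| / 2 ^ j)) := by
              rw [← Real.exp_nat_mul, h4, abs_div, abs_mul, abs_of_pos hpi,
                abs_of_pos (by positivity : (0 : ℝ) < 2 ^ j)]
              norm_num
          _ ≤ E := by
              apply Real.exp_le_exp.2
              rw [mul_div_assoc', div_le_iff₀ (by positivity)]
              have := mul_nonneg hpi.le (abs_nonneg z.im)
              nlinarith
      rw [h2]
      have h6 : (4 : ℝ) ^ j = (2 ^ j) ^ 2 := by rw [← pow_mul, mul_comm j 2, pow_mul]; norm_num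
      rw [h6]
      have h7 : (‖Complex.sin (Real.pi * z / 2 ^ j)‖ / (Real.pi * ‖z‖ / 2 ^ j)) ^ 2 * ‖z‖ ^ 2 =
          (2 ^ j) ^ 2 / Real.pi ^ 2 * ‖Complex.sin (Real.pi * z / 2 ^ j)‖ ^ 2 := by
        field_simp
      rw [h7]
      gcongr
  unfold phiC
  rw [norm_div, Complex.norm_natCast, div_mul_eq_mul_div]
  have h2 : ‖∑ j ∈ Finset.Icc 1 J, fej (Real.pi * z / 2 ^ j)‖ * ‖z‖ ^ 2 ≤ 4 ^ J / 7 * E := by
    calc ‖∑ j ∈ Finset.Icc 1 J, fej (Real.pi * z / 2 ^ j)‖ * ‖z‖ ^ 2 ≤
        (∑ j ∈ Finset.Icc 1 J, ‖fej (Real.pi * z / 2 ^ j)‖) * ‖z‖ ^ 2 := by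
          gcongr
          exact norm_sum_le _ _
      _ = ∑ j ∈ Finset.Icc 1 J, ‖fej (Real.pi * z / 2 ^ j)‖ * ‖z‖ ^ 2 := Finset.sum_mul _ _ _
      _ ≤ ∑ j ∈ Finset.Icc 1 J, (4 : ℝ) ^ j / Real.pi ^ 2 * E :=
          Finset.sum_le_sum fun j hj => h1 j (Finset.mem_Icc.1 hj).1
      _ = 4 / 3 * (4 ^ J - 1) / Real.pi ^ 2 * E := by
          rw [← Finset.sum_mul, ← Finset.sum_div, sum_four]
      _ ≤ 4 ^ J / 7 * E := by
          apply mul_le_mul_of_nonneg_right _ (by positivity)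
          rw [div_le_div_iff₀ (by positivity) (by norm_num)]
          have h9 : (28 : ℝ) / 3 ≤ Real.pi ^ 2 := by nlinarith [Real.pi_gt_d2]
          have h0 : (0 : ℝ) < 4 ^ J := by positivity
          nlinarith
  calc _ ≤ 4 ^ J / 7 * E / J := div_le_div_of_nonneg_right h2 hJ'.le
    _ = _ := by field_simp

/-- `phiC` is close to `1` near the origin -/
lemma one_sub_phiC (J : ℕ) (hJ : 1 ≤ J) (z : ℂ) :
    ‖1 - phiC J z‖ ≤ 20 * ‖z‖ ^ 2 / J * Real.exp (Real.pi * |z.im|) := by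
  have hJ' : (0 : ℝ) < J := by exact_mod_cast hJ
  have hpi := Real.pi_pos
  have htc := tri_cont J
  have h1 : ∫ α in (-(1 / 2 : ℝ))..(1 / 2), tri J α = 1 := by
    have h := trans J 0
    rw [phi_zero J hJ] at h
    simpa using h
  have h1' : ∫ α in (-(1 / 2 : ℝ))..(1 / 2), (tri J α : ℂ) = 1 := by
    rw [intervalIntegral.integral_ofReal, h1, Complex.ofReal_one]
  have h2 : 1 - phiC J z = ∫ α in (-(1 / 2 : ℝ))..(1 / 2),
      (tri J α : ℂ) * (1 - Complex.cos (2 * Real.pi * α * z)) := by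
    calc 1 - phiC J z = (∫ α in (-(1 / 2 : ℝ))..(1 / 2), (tri J α : ℂ)) -
          ∫ α in (-(1 / 2 : ℝ))..(1 / 2), (tri J α : ℂ) * Complex.cos (2 * Real.pi * α * z) := by
            rw [h1', transC]
      _ = ∫ α in (-(1 / 2 : ℝ))..(1 / 2), ((tri J α : ℂ) -
            (tri J α : ℂ) * Complex.cos (2 * Real.pi * α * z)) :=
          (intervalIntegral.integral_sub
            (Continuous.intervalIntegrable (by fun_prop) _ _)
            (Continuous.intervalIntegrable (by fun_prop) _ _)).symm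
      _ = _ := by
          refine intervalIntegral.integral_congr fun α _ => ?_
          ring
  rw [h2]
  set E := Real.exp (Real.pi * |z.im|) with hE
  calc ‖∫ α in (-(1 / 2 : ℝ))..(1 / 2), (tri J α : ℂ) * (1 - Complex.cos (2 * Real.pi * α * z))‖ ≤
      ∫ α in (-(1 / 2 : ℝ))..(1 / 2), ‖(tri J α : ℂ) * (1 - Complex.cos (2 * Real.pi * α * z))‖ :=
        intervalIntegral.norm_integral_le_integral_norm (by norm_num)
    _ ≤ ∫ α in (-(1 / 2 : ℝ))..(1 / 2), 2 * Real.pi ^ 2 * ‖z‖ ^ 2 * E * (2 / J) * (1 / 2) := by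
        refine intervalIntegral.integral_mono_on (by norm_num)
          (Continuous.intervalIntegrable (by fun_prop) _ _)
          (Continuous.intervalIntegrable (by fun_prop) _ _) fun α hα => ?_
        rw [norm_mul, Complex.norm_real, Real.norm_of_nonneg (tri_nonneg J α)]
        have h3 : |α| ≤ 1 / 2 := abs_le.2 ⟨by linarith [hα.1], hα.2⟩
        have h4 := abs_nonneg z.im
        have e0 : (2 * (Real.pi : ℂ) * α * z) = ((2 * Real.pi * α : ℝ) : ℂ) * z := by
          push_cast; ring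
        have e1 : ‖(2 * (Real.pi : ℂ) * α * z)‖ = 2 * Real.pi * |α| * ‖z‖ := by
          rw [e0, norm_mul, Complex.norm_real, Real.norm_eq_abs, abs_mul, abs_mul,
            abs_of_pos hpi, abs_of_pos (by norm_num : (0 : ℝ) < 2)]
        have e2 : |(2 * (Real.pi : ℂ) * α * z).im| ≤ Real.pi * |z.im| := by
          rw [e0, Complex.im_ofReal_mul, abs_mul, abs_mul, abs_mul, abs_of_pos hpi,
            abs_of_pos (by norm_num : (0 : ℝ) < 2)]
          nlinarith [mul_nonneg hpi.le h4]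
        have h5 := norm_one_sub_cos (2 * (Real.pi : ℂ) * α * z)
        rw [e1] at h5
        have h6 : Real.exp |(2 * (Real.pi : ℂ) * α * z).im| ≤ E := Real.exp_le_exp.2 e2
        have h7 := abs_mul_tri J α
        have ht := tri_nonneg J α
        have ha := abs_nonneg α
        have hz := norm_nonneg z
        calc tri J α * ‖1 - Complex.cos (2 * (Real.pi : ℂ) * α * z)‖ ≤
            tri J α * ((2 * Real.pi * |α| * ‖z‖) ^ 2 / 2 * E) := by
              apply mul_le_mul_of_nonneg_left _ ht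
              refine h5.trans ?_
              gcongr
          _ = 2 * Real.pi ^ 2 * ‖z‖ ^ 2 * E * (|α| * tri J α) * |α| := by ring
          _ ≤ 2 * Real.pi ^ 2 * ‖z‖ ^ 2 * E * (2 / J) * (1 / 2) := by gcongr
    _ = 2 * Real.pi ^ 2 * ‖z‖ ^ 2 * E / J := by
        rw [intervalIntegral.integral_const, smul_eq_mul]
        field_simp
        ring
    _ ≤ _ := by
        have h8 : Real.pi ^ 2 ≤ 10 := by nlinarith [Real.pi_lt_d2]
        have hE0 : 0 < E := Real.exp_pos _
        rw [div_mul_eq_mul_div, div_le_div_iff_of_pos_right hJ']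
        have : 0 ≤ ‖z‖ ^ 2 * E := by positivity
        nlinarith

end Pool.Agent.TH850.UR
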