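import Pool.Agent.TH850.NR.Four
import Pool.Agent.TH850.NR.Window
import Pool.Agent.H370R2.NT

set_option autoImplicit false

/-! # The coefficients of the prime sum -/

namespace Pool.Agent.TH850.UR

open Filter Topology MeasureTheory Set
open Pool.Agent.TH850.NR
open ArithmeticFunction (vonMangoldt)

/-- Mertens in windows -/
lemma win (u r : ℝ) (hu : 0 ≤ u) (hr : 0 ≤ r) (X : ℕ) :
    ∑ n ∈ (Finset.Icc 1 X).filter (fun n : ℕ => |u - Real.log n| ≤ r), vonMangoldt n / n ≤
      2 * r + 8 := by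
  classical
  set N2 : ℕ := ⌊Real.exp (u + r)⌋₊ with hN2
  set N1 : ℕ := ⌈Real.exp (u - r)⌉₊ - 1 with hN1
  have hpos : ∀ n : ℕ, 0 ≤ vonMangoldt n / (n : ℝ) := fun n =>
    div_nonneg ArithmeticFunction.vonMangoldt_nonneg (Nat.cast_nonneg _)
  have h1 : 1 ≤ N2 := by
    rw [hN2, Nat.one_le_floor_iff]
    exact Real.one_le_exp (by linarith)
  have h2 : Real.log N2 ≤ u + r := by
    rw [Real.log_le_iff_le_exp (by exact_mod_cast h1)]
    exact Nat.floor_le (Real.exp_pos _).le
  have hup := H370.nt_mertens_upper N2 h1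
  have hsub : ∀ n ∈ (Finset.Icc 1 X).filter (fun n : ℕ => |u - Real.log n| ≤ r),
      N1 < n ∧ n ≤ N2 := by
    intro n hn
    rw [Finset.mem_filter, Finset.mem_Icc] at hn
    obtain ⟨⟨h3, h4⟩, h5⟩ := hn
    have hn0 : (0 : ℝ) < n := by exact_mod_cast h3
    rw [abs_le] at h5
    constructor
    · have h6 : Real.exp (u - r) ≤ n := by
        rw [← Real.le_log_iff_exp_le hn0]; linarith [h5.2]
      have h7 : ⌈Real.exp (u - r)⌉₊ ≤ n := Nat.ceil_le.2 h6
      omega
    · rw [hN2]
      apply Nat.le_floor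
      rw [← Real.log_le_iff_le_exp hn0]; linarith [h5.1]
  rcases Nat.eq_zero_or_pos N1 with h0 | h0
  · have h3 : ⌈Real.exp (u - r)⌉₊ ≤ 1 := by omega
    have h4 : Real.exp (u - r) ≤ 1 := by
      have := Nat.ceil_le.1 h3
      exact_mod_cast this
    have h5 : u - r ≤ 0 := by
      rwa [Real.exp_le_one_iff] at h4
    calc _ ≤ ∑ n ∈ Finset.Icc 1 N2, vonMangoldt n / (n : ℝ) := by
          refine Finset.sum_le_sum_of_subset_of_nonneg ?_ fun n _ _ => hpos n
          intro n hn
          have h6 := hsub n hn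
          rw [Finset.mem_Icc]
          omega
      _ ≤ Real.log N2 + 6 := hup
      _ ≤ _ := by linarith
  · have hlow := H370.nt_mertens_lower N1 h0
    have hN1' : (0 : ℝ) < N1 := by exact_mod_cast h0
    have h12 : N1 ≤ N2 := by
      have h3 : Real.exp (u - r) ≤ Real.exp (u + r) := Real.exp_le_exp.2 (by linarith)
      have h4 : ⌈Real.exp (u - r)⌉₊ ≤ N2 + 1 := by
        rw [Nat.ceil_le]
        have := Nat.lt_floor_add_one (Real.exp (u + r))
        push_cast
        linarith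
      omega
    have h3 : u - r - 1 ≤ Real.log N1 := by
      rw [Real.le_log_iff_exp_le hN1']
      have h4 : Real.exp (u - r) ≤ N1 + 1 := by
        have h5 := Nat.le_ceil (Real.exp (u - r))
        have h6 : ⌈Real.exp (u - r)⌉₊ = N1 + 1 := by omega
        rw [h6] at h5
        exact_mod_cast h5
      have h5 : (1 : ℝ) ≤ N1 := by exact_mod_cast h0
      have h6 : Real.exp (u - r) ≤ 2 * N1 := by linarith
      have h7 : Real.exp (u - r - 1) = Real.exp (u - r) * Real.exp (-1) := by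
        rw [← Real.exp_add]; congr 1
      have h8 : Real.exp (-1) ≤ 1 / 2 := by
        rw [Real.exp_neg, inv_eq_one_div]
        apply one_div_le_one_div_of_le (by norm_num)
        linarith [Real.add_one_le_exp 1]
      rw [h7]
      have h9 := Real.exp_pos (u - r)
      nlinarith
    have hsum : ∑ n ∈ Finset.Icc 1 N1, vonMangoldt n / (n : ℝ) +
        ∑ n ∈ (Finset.Icc 1 X).filter (fun n : ℕ => |u - Real.log n| ≤ r), vonMangoldt n / (n : ℝ) ≤
        ∑ n ∈ Finset.Icc 1 N2, vonMangoldt n / (n : ℝ) := by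
      rw [← Finset.sum_union]
      · refine Finset.sum_le_sum_of_subset_of_nonneg ?_ fun n _ _ => hpos n
        intro n hn
        rw [Finset.mem_union] at hn
        rcases hn with hn | hn
        · rw [Finset.mem_Icc] at hn ⊢
          omega
        · have h6 := hsub n hn
          rw [Finset.mem_Icc]
          omega
      · rw [Finset.disjoint_left]
        intro n hn hn'
        rw [Finset.mem_Icc] at hn
        have := hsub n hn'
        omega
    linarith

/-- the sum of `Λ² / n` with a Gaussian weight -/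
noncomputable def WW (X : ℕ) (u : ℝ) : ℝ :=
  ∑ n ∈ Finset.Icc 1 X, vonMangoldt n ^ 2 / n * Real.exp (-(u - Real.log n) ^ 2 / 2)

lemma WW_bound : ∃ C : ℝ, 0 < C ∧ ∀ (X : ℕ) (u : ℝ), 0 ≤ u → WW X u ≤ C * (1 + u) := by
  classical
  have hsum : Summable (fun k : ℕ => ((k : ℝ) + 1) ^ 2 * Real.exp (-(k : ℝ))) := by
    have h := (Real.summable_pow_mul_exp_neg_nat_mul 2 one_pos).comp_injective
      (add_left_injective 1)
    refine (h.mul_right (Real.exp 1)).congr fun k => ?_
    simp only [Function.comp_apply]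
    rw [mul_assoc, ← Real.exp_add]
    push_cast
    congr 2
    ring
  set C0 := ∑' k : ℕ, ((k : ℝ) + 1) ^ 2 * Real.exp (-(k : ℝ)) with hC0
  have hC00 : 0 ≤ C0 := tsum_nonneg fun k => by positivity
  refine ⟨10 * Real.exp 1 * C0 + 1, by positivity, fun X u hu => ?_⟩
  set w : ℕ → ℝ := fun n => vonMangoldt n ^ 2 / n * Real.exp (-(u - Real.log n) ^ 2 / 2) with hw
  set κ : ℕ → ℕ := fun n => ⌊|u - Real.log n|⌋₊ with hκ
  set K : ℕ := (Finset.Icc 1 X).sup κ + 1 with hK
  have hmaps : ∀ n ∈ Finset.Icc 1 X, κ n ∈ Finset.range K := by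
    intro n hn
    rw [Finset.mem_range, hK, Nat.lt_succ_iff]
    exact Finset.le_sup (f := κ) hn
  have hfib : ∀ k ∈ Finset.range K, ∑ n ∈ (Finset.Icc 1 X).filter (fun n => κ n = k), w n ≤
      10 * Real.exp 1 * (1 + u) * (((k : ℝ) + 1) ^ 2 * Real.exp (-(k : ℝ))) := by
    intro k _
    have hk0 : (0 : ℝ) ≤ k := Nat.cast_nonneg k
    have h1 : ∀ n ∈ (Finset.Icc 1 X).filter (fun n => κ n = k), w n ≤
        (u + k + 1) * Real.exp (-(k : ℝ) ^ 2 / 2) * (vonMangoldt n / n) := by
      intro n hn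
      rw [Finset.mem_filter, Finset.mem_Icc] at hn
      obtain ⟨⟨h3, _⟩, h5⟩ := hn
      have hn0 : (0 : ℝ) < n := by exact_mod_cast h3
      have h6 : (k : ℝ) ≤ |u - Real.log n| := by
        rw [← h5]; exact Nat.floor_le (abs_nonneg _)
      have h7 : |u - Real.log n| < k + 1 := by
        rw [← h5]; exact Nat.lt_floor_add_one _
      have h8 : Real.exp (-(u - Real.log n) ^ 2 / 2) ≤ Real.exp (-(k : ℝ) ^ 2 / 2) := by
        apply Real.exp_le_exp.2
        have h9 : (k : ℝ) ^ 2 ≤ (u - Real.log n) ^ 2 := by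
          rw [← sq_abs (u - Real.log n)]
          exact pow_le_pow_left₀ hk0 h6 2
        linarith
      have h9 : vonMangoldt n ≤ u + k + 1 := by
        refine (ArithmeticFunction.vonMangoldt_le_log).trans ?_
        have := (abs_lt.1 h7).1
        linarith
      have h10 : 0 ≤ vonMangoldt n := ArithmeticFunction.vonMangoldt_nonneg
      calc w n = vonMangoldt n * Real.exp (-(u - Real.log n) ^ 2 / 2) * (vonMangoldt n / n) := by
            rw [hw]; ring
        _ ≤ (u + k + 1) * Real.exp (-(k : ℝ) ^ 2 / 2) * (vonMangoldt n / n) := by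
            gcongr
    have h2 : ∑ n ∈ (Finset.Icc 1 X).filter (fun n => κ n = k), vonMangoldt n / (n : ℝ) ≤
        2 * (k + 1) + 8 := by
      refine le_trans (Finset.sum_le_sum_of_subset_of_nonneg ?_ fun n _ _ =>
        div_nonneg ArithmeticFunction.vonMangoldt_nonneg (Nat.cast_nonneg _))
        (win u (k + 1) hu (by positivity) X)
      intro n hn
      rw [Finset.mem_filter] at hn ⊢
      refine ⟨hn.1, ?_⟩
      rw [← hn.2]
      exact (Nat.lt_floor_add_one _).le
    have h3 : Real.exp (-(k : ℝ) ^ 2 / 2) ≤ Real.exp 1 * Real.exp (-(k : ℝ)) := by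
      rw [← Real.exp_add]
      apply Real.exp_le_exp.2
      nlinarith [sq_nonneg ((k : ℝ) - 1)]
    calc ∑ n ∈ (Finset.Icc 1 X).filter (fun n => κ n = k), w n ≤
        ∑ n ∈ (Finset.Icc 1 X).filter (fun n => κ n = k),
          (u + k + 1) * Real.exp (-(k : ℝ) ^ 2 / 2) * (vonMangoldt n / n) := Finset.sum_le_sum h1
      _ = (u + k + 1) * Real.exp (-(k : ℝ) ^ 2 / 2) *
          ∑ n ∈ (Finset.Icc 1 X).filter (fun n => κ n = k), vonMangoldt n / (n : ℝ) := by
          rw [Finset.mul_sum]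
      _ ≤ ((1 + u) * (k + 1)) * (Real.exp 1 * Real.exp (-(k : ℝ))) * (10 * (k + 1)) := by
          apply mul_le_mul _ (h2.trans (by linarith)) (Finset.sum_nonneg fun n _ =>
            div_nonneg ArithmeticFunction.vonMangoldt_nonneg (Nat.cast_nonneg _)) (by positivity)
          apply mul_le_mul _ h3 (Real.exp_pos _).le (by positivity)
          nlinarith
      _ = _ := by ring
  unfold WW
  rw [← Finset.sum_fiberwise_of_maps_to hmaps]
  calc _ ≤ ∑ k ∈ Finset.range K, 10 * Real.exp 1 * (1 + u) *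
        (((k : ℝ) + 1) ^ 2 * Real.exp (-(k : ℝ))) := Finset.sum_le_sum hfib
    _ = 10 * Real.exp 1 * (1 + u) * ∑ k ∈ Finset.range K,
        (((k : ℝ) + 1) ^ 2 * Real.exp (-(k : ℝ))) := by rw [Finset.mul_sum]
    _ ≤ 10 * Real.exp 1 * (1 + u) * C0 := by
        apply mul_le_mul_of_nonneg_left _ (by positivity)
        exact hsum.sum_le_tsum _ fun k _ => by positivity
    _ ≤ _ := by nlinarith

/-- weighted Cauchy-Schwarz on `[0, 1/2]` -/
lemma cs_weight (f w : ℝ → ℝ) (hf : Continuous f) (hw : Continuous w) (hw0 : ∀ x, 0 < w x) :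
    (∫ α in (0 : ℝ)..(1 / 2), f α * w α) ^ 2 ≤
      (∫ α in (0 : ℝ)..(1 / 2), w α) * ∫ α in (0 : ℝ)..(1 / 2), f α ^ 2 * w α := by
  set A := ∫ α in (0 : ℝ)..(1 / 2), w α with hA
  set B := ∫ α in (0 : ℝ)..(1 / 2), f α * w α with hB
  have hA0 : 0 < A := by
    rw [hA]
    exact intervalIntegral.intervalIntegral_pos_of_pos (hw.intervalIntegrable _ _)
      (fun x => hw0 x) (by norm_num)
  have h1 : 0 ≤ ∫ α in (0 : ℝ)..(1 / 2), w α * (f α - B / A) ^ 2 :=
    intervalIntegral.integral_nonneg (by norm_num) fun x _ =>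
      mul_nonneg (hw0 x).le (sq_nonneg _)
  have h2 : ∫ α in (0 : ℝ)..(1 / 2), w α * (f α - B / A) ^ 2 =
      (∫ α in (0 : ℝ)..(1 / 2), f α ^ 2 * w α) - 2 * (B / A) * B + (B / A) ^ 2 * A := by
    have e : ∀ α, w α * (f α - B / A) ^ 2 =
        f α ^ 2 * w α - 2 * (B / A) * (f α * w α) + (B / A) ^ 2 * w α := fun α => by ring
    simp_rw [e]
    rw [intervalIntegral.integral_add (Continuous.intervalIntegrable (by fun_prop) _ _)
      (Continuous.intervalIntegrable (by fun_prop) _ _),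
      intervalIntegral.integral_sub (Continuous.intervalIntegrable (by fun_prop) _ _)
      (Continuous.intervalIntegrable (by fun_prop) _ _),
      intervalIntegral.integral_const_mul, intervalIntegral.integral_const_mul]
  rw [h2] at h1
  have h3 : 2 * (B / A) * B - (B / A) ^ 2 * A = B ^ 2 / A := by
    field_simp
    ring
  have h4 : B ^ 2 / A ≤ ∫ α in (0 : ℝ)..(1 / 2), f α ^ 2 * w α := by linarith
  rw [div_le_iff₀ hA0] at h4
  linarith

lemma gauss_total : ∫ x : ℝ, Real.exp (-x ^ 2 / 2) = Real.sqrt (2 * Real.pi) := by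
  have h := integral_gaussian (1 / 2)
  have e : ∀ x : ℝ, Real.exp (-x ^ 2 / 2) = Real.exp (-(1 / 2) * x ^ 2) := fun x => by
    congr 1; ring
  simp_rw [e]
  rw [h]
  congr 1
  field_simp

lemma gauss_integrable : Integrable fun x : ℝ => Real.exp (-x ^ 2 / 2) := by
  have h := integrable_exp_neg_mul_sq (b := 1 / 2) (by norm_num)
  refine h.congr (Eventually.of_forall fun x => ?_)
  simp only
  congr 1
  ring

/-- the Gaussian at the scale `1 / l` -/
lemma gauss_scaled {l : ℝ} (hl : 0 < l) (v : ℝ) :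
    ∫ α in (0 : ℝ)..(1 / 2), Real.exp (-(α * l - v) ^ 2 / 2) ≤ Real.sqrt (2 * Real.pi) / l := by
  have e : ∀ α : ℝ, Real.exp (-(α * l - v) ^ 2 / 2) =
      (fun x : ℝ => Real.exp (-x ^ 2 / 2)) ((v / l - α) * l) := by
    intro α
    simp only
    congr 1
    field_simp
    ring
  simp_rw [e]
  rw [intervalIntegral.integral_of_le (by norm_num), ← gauss_total,
    ← comp_integral (fun x : ℝ => Real.exp (-x ^ 2 / 2)) hl (v / l)]
  exact setIntegral_le_integral (comp_integrable gauss_integrable hl _)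
    (Eventually.of_forall fun x => (Real.exp_pos _).le)

/-- the coefficients -/
noncomputable def gg (J : ℕ) (l : ℝ) (n : ℕ) : ℝ :=
  ∫ α in (0 : ℝ)..(1 / 2), tri J α * Real.exp (-(α * l - Real.log n) ^ 2 / 2)

lemma int_tri' (J : ℕ) (hJ : 1 ≤ J) : ∫ α in (-(1 / 2 : ℝ))..(1 / 2), tri J α = 1 := by
  have h := trans J 0
  rw [phi_zero J hJ] at h
  simpa using h

lemma half_tri (J : ℕ) (hJ : 1 ≤ J) : ∫ α in (0 : ℝ)..(1 / 2), tri J α ≤ 1 := by
  have htc := tri_cont J
  refine le_trans ?_ (int_tri' J hJ).le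
  exact intervalIntegral.integral_mono_interval (by norm_num) (by norm_num) le_rfl
    (Eventually.of_forall fun x => tri_nonneg J x) (htc.intervalIntegrable _ _)

/-- the mean square of the coefficients -/
lemma coef : ∃ C : ℝ, 0 < C ∧ ∀ (J : ℕ), 1 ≤ J → ∀ (X : ℕ) (l : ℝ), 0 < l →
    ∑ n ∈ Finset.Icc 1 X, vonMangoldt n ^ 2 / n * gg J l n ^ 2 ≤ C * (cc J ^ 2 / l + 2 / J) := by
  classical
  obtain ⟨C, hC, hW⟩ := WW_bound
  refine ⟨Real.sqrt (2 * Real.pi) * C, by positivity, fun J hJ X l hl => ?_⟩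
  have hJ' : (0 : ℝ) < J := by exact_mod_cast hJ
  have htc := tri_cont J
  have hs : 0 ≤ Real.sqrt (2 * Real.pi) := Real.sqrt_nonneg _
  have h1 : ∀ n ∈ Finset.Icc 1 X, vonMangoldt n ^ 2 / n * gg J l n ^ 2 ≤
      Real.sqrt (2 * Real.pi) / l * ∫ α in (0 : ℝ)..(1 / 2),
        tri J α ^ 2 * (vonMangoldt n ^ 2 / n * Real.exp (-(α * l - Real.log n) ^ 2 / 2)) := by
    intro n _
    have h2 := cs_weight (tri J) (fun α => Real.exp (-(α * l - Real.log n) ^ 2 / 2)) htc
      (by fun_prop) (fun x => Real.exp_pos _)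
    have h3 := gauss_scaled hl (Real.log n)
    have h4 : 0 ≤ ∫ α in (0 : ℝ)..(1 / 2), tri J α ^ 2 *
        Real.exp (-(α * l - Real.log n) ^ 2 / 2) :=
      intervalIntegral.integral_nonneg (by norm_num) fun x _ => by positivity
    have h5 : gg J l n ^ 2 ≤ Real.sqrt (2 * Real.pi) / l * ∫ α in (0 : ℝ)..(1 / 2), tri J α ^ 2 *
        Real.exp (-(α * l - Real.log n) ^ 2 / 2) :=
      h2.trans (mul_le_mul_of_nonneg_right h3 h4)
    have h6 : ∫ α in (0 : ℝ)..(1 / 2),
        tri J α ^ 2 * (vonMangoldt n ^ 2 / n * Real.exp (-(α * l - Real.log n) ^ 2 / 2)) =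
        vonMangoldt n ^ 2 / n * ∫ α in (0 : ℝ)..(1 / 2), tri J α ^ 2 *
        Real.exp (-(α * l - Real.log n) ^ 2 / 2) := by
      rw [← intervalIntegral.integral_const_mul]
      refine intervalIntegral.integral_congr fun α _ => ?_
      ring
    rw [h6]
    calc vonMangoldt n ^ 2 / n * gg J l n ^ 2 ≤ vonMangoldt n ^ 2 / n *
        (Real.sqrt (2 * Real.pi) / l * ∫ α in (0 : ℝ)..(1 / 2), tri J α ^ 2 *
        Real.exp (-(α * l - Real.log n) ^ 2 / 2)) :=
          mul_le_mul_of_nonneg_left h5 (by positivity)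
      _ = _ := by ring
  refine (Finset.sum_le_sum h1).trans ?_
  rw [← Finset.mul_sum, ← intervalIntegral.integral_finsetSum fun n _ =>
    Continuous.intervalIntegrable (by fun_prop) _ _]
  have h2 : ∫ α in (0 : ℝ)..(1 / 2), ∑ n ∈ Finset.Icc 1 X,
      tri J α ^ 2 * (vonMangoldt n ^ 2 / n * Real.exp (-(α * l - Real.log n) ^ 2 / 2)) ≤
      ∫ α in (0 : ℝ)..(1 / 2), (C * cc J ^ 2 + C * l * (2 / J) * tri J α) := by
    refine intervalIntegral.integral_mono_on (by norm_num)
      (Continuous.intervalIntegrable (by fun_prop) _ _)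
      (Continuous.intervalIntegrable (by fun_prop) _ _) fun α hα => ?_
    rw [← Finset.mul_sum]
    have h3 : ∑ n ∈ Finset.Icc 1 X, vonMangoldt n ^ 2 / n *
        Real.exp (-(α * l - Real.log n) ^ 2 / 2) ≤ C * (1 + α * l) :=
      hW X (α * l) (mul_nonneg hα.1 hl.le)
    have h4 := tri_nonneg J α
    have h5 := tri_le J α
    have h6 := abs_mul_tri J α
    rw [abs_of_nonneg hα.1] at h6
    calc tri J α ^ 2 * ∑ n ∈ Finset.Icc 1 X, vonMangoldt n ^ 2 / n *
        Real.exp (-(α * l - Real.log n) ^ 2 / 2) ≤ tri J α ^ 2 * (C * (1 + α * l)) :=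
          mul_le_mul_of_nonneg_left h3 (sq_nonneg _)
      _ = C * tri J α ^ 2 + C * l * (α * tri J α) * tri J α := by ring
      _ ≤ C * cc J ^ 2 + C * l * (2 / J) * tri J α := by
          have h7 : tri J α ^ 2 ≤ cc J ^ 2 := pow_le_pow_left₀ h4 h5 2
          gcongr
  have h3 : ∫ α in (0 : ℝ)..(1 / 2), (C * cc J ^ 2 + C * l * (2 / J) * tri J α) ≤
      C * cc J ^ 2 + C * l * (2 / J) := by
    rw [intervalIntegral.integral_add (Continuous.intervalIntegrable (by fun_prop) _ _)
      (Continuous.intervalIntegrable (by fun_prop) _ _), intervalIntegral.integral_const,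
      intervalIntegral.integral_const_mul, smul_eq_mul]
    have h4 := half_tri J hJ
    have h5 : C * l * (2 / J) * ∫ α in (0 : ℝ)..(1 / 2), tri J α ≤ C * l * (2 / J) * 1 :=
      mul_le_mul_of_nonneg_left h4 (by positivity)
    have h6 : 0 ≤ C * cc J ^ 2 := by positivity
    linarith
  calc Real.sqrt (2 * Real.pi) / l * _ ≤ Real.sqrt (2 * Real.pi) / l *
      (C * cc J ^ 2 + C * l * (2 / J)) :=
        mul_le_mul_of_nonneg_left (h2.trans h3) (by positivity)
    _ = _ := by
        field_simp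

end Pool.Agent.TH850.UR
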