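import Pool.Agent.TH850.UR.HF

set_option autoImplicit false

/-! # The linear statistic of all zeros is close to its mean -/

namespace Pool.Agent.TH850.UR

open Complex Filter Topology MeasureTheory Set
open scoped ComplexConjugate
open Pool.Agent.TH850.NR
open H370 (zz hh mult Zf zset AA AA_eq hh_eq zz_refl mult_refl sum_refl mem_Zf good_zeta GoodL pterm)

lemma gg_one (J : ℕ) (l : ℝ) : gg J l 1 =
    ∫ α in (0 : ℝ)..(1 / 2), tri J α * Real.exp (-(α * l) ^ 2 / 2) := by
  unfold gg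
  rw [Nat.cast_one, Real.log_one]
  simp_rw [sub_zero]

lemma int_v (b : ℝ) : ∫ v in (0 : ℝ)..b, v * Real.exp (-v ^ 2 / 2) = 1 - Real.exp (-b ^ 2 / 2) := by
  have hd : ∀ v ∈ Set.uIcc (0 : ℝ) b, HasDerivAt (fun v : ℝ => -Real.exp (-v ^ 2 / 2))
      (v * Real.exp (-v ^ 2 / 2)) v := by
    intro v _
    have h1 : HasDerivAt (fun v : ℝ => -v ^ 2 / 2) (-v) v := by
      have := (((hasDerivAt_id' v).pow 2).neg).div_const 2
      refine this.congr_deriv ?_
      norm_num
      ring
    refine h1.exp.neg.congr_deriv ?_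
    ring
  rw [intervalIntegral.integral_eq_sub_of_hasDerivAt hd
    (Continuous.intervalIntegrable (by fun_prop) _ _)]
  norm_num
  ring

lemma int_e (b : ℝ) : ∫ v in (0 : ℝ)..b, Real.exp (-v) = 1 - Real.exp (-b) := by
  have hd : ∀ v ∈ Set.uIcc (0 : ℝ) b, HasDerivAt (fun v : ℝ => -Real.exp (-v))
      (Real.exp (-v)) v := by
    intro v _
    have h1 : HasDerivAt (fun v : ℝ => -v) (-1) v := hasDerivAt_neg v
    refine (h1.exp.neg).congr_deriv ?_
    ring
  rw [intervalIntegral.integral_eq_sub_of_hasDerivAt hd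
    (Continuous.intervalIntegrable (by fun_prop) _ _)]
  norm_num
  ring

lemma G_lim (J : ℕ) : Tendsto (fun l : ℝ => l * gg J l 1) atTop
    (𝓝 (cc J * (Real.sqrt (2 * Real.pi) / 2))) := by
  obtain ⟨K, hK⟩ := tri_lip J
  have htc := tri_cont J
  have hK0 : 0 ≤ K := by
    have h1 := hK 1 0
    have h2 := abs_nonneg (tri J 1 - tri J 0)
    simp at h1
    linarith
  -- the Gaussian integral
  have h1 : Tendsto (fun l : ℝ => ∫ v in (0 : ℝ)..(l / 2), Real.exp (-v ^ 2 / 2)) atTop
      (𝓝 (Real.sqrt (2 * Real.pi) / 2)) := by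
    have h2 : ∫ v in Ioi (0 : ℝ), Real.exp (-v ^ 2 / 2) = Real.sqrt (2 * Real.pi) / 2 := by
      have h := integral_gaussian_Ioi (1 / 2)
      have e : ∀ x : ℝ, Real.exp (-x ^ 2 / 2) = Real.exp (-(1 / 2) * x ^ 2) := fun x => by
        congr 1; ring
      simp_rw [e]
      rw [h]
      congr 2
      field_simp
    rw [← h2]
    refine (intervalIntegral_tendsto_integral_Ioi 0 gauss_integrable.integrableOn
      (tendsto_id.atTop_div_const (by norm_num : (0 : ℝ) < 2)))
  have h2 : Tendsto (fun l : ℝ => cc J * ∫ v in (0 : ℝ)..(l / 2), Real.exp (-v ^ 2 / 2)) atTop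
      (𝓝 (cc J * (Real.sqrt (2 * Real.pi) / 2))) := h1.const_mul _
  have h3 : Tendsto (fun l : ℝ => K / l) atTop (𝓝 0) := tendsto_const_nhds.div_atTop tendsto_id
  refine (tendsto_iff_of_dist ?_).1 h2
  refine squeeze_zero' (Eventually.of_forall fun l => dist_nonneg) ?_ h3
  filter_upwards [eventually_gt_atTop 0] with l hl
  rw [Real.dist_eq]
  have e1 : ∫ v in (0 : ℝ)..(l / 2), Real.exp (-v ^ 2 / 2) =
      l * ∫ α in (0 : ℝ)..(1 / 2), Real.exp (-(α * l) ^ 2 / 2) := by
    have := intervalIntegral.mul_integral_comp_mul_right (a := 0) (b := 1 / 2)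
      (f := fun v : ℝ => Real.exp (-v ^ 2 / 2)) (c := l)
    rw [this]
    congr 1
    · ring
    · ring
  have e2 : cc J * (∫ v in (0 : ℝ)..(l / 2), Real.exp (-v ^ 2 / 2)) - l * gg J l 1 =
      l * ∫ α in (0 : ℝ)..(1 / 2), (cc J - tri J α) * Real.exp (-(α * l) ^ 2 / 2) := by
    rw [e1, gg_one, ← mul_assoc, mul_comm (cc J) l, mul_assoc, ← mul_sub,
      ← intervalIntegral.integral_const_mul,
      ← intervalIntegral.integral_sub (Continuous.intervalIntegrable (by fun_prop) _ _)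
      (Continuous.intervalIntegrable (by fun_prop) _ _)]
    congr 1
    refine intervalIntegral.integral_congr fun α _ => ?_
    ring
  have e3 : l * ∫ α in (0 : ℝ)..(1 / 2), (α * l) * Real.exp (-(α * l) ^ 2 / 2) =
      1 - Real.exp (-(l / 2) ^ 2 / 2) := by
    rw [← int_v]
    have := intervalIntegral.mul_integral_comp_mul_right (a := 0) (b := 1 / 2)
      (f := fun v : ℝ => v * Real.exp (-v ^ 2 / 2)) (c := l)
    rw [this]
    congr 1
    · ring
    · ring
  rw [e2, abs_mul, abs_of_pos hl]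
  have h4 : |∫ α in (0 : ℝ)..(1 / 2), (cc J - tri J α) * Real.exp (-(α * l) ^ 2 / 2)| ≤
      K / l * ∫ α in (0 : ℝ)..(1 / 2), (α * l) * Real.exp (-(α * l) ^ 2 / 2) := by
    rw [← intervalIntegral.integral_const_mul]
    refine (intervalIntegral.abs_integral_le_integral_abs (by norm_num)).trans ?_
    refine intervalIntegral.integral_mono_on (by norm_num)
      (Continuous.intervalIntegrable (by fun_prop) _ _)
      (Continuous.intervalIntegrable (by fun_prop) _ _) fun α hα => ?_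
    rw [abs_mul, abs_of_pos (Real.exp_pos _)]
    have h5 := hK 0 α
    rw [tri_zero, zero_sub, abs_neg, abs_of_nonneg hα.1] at h5
    calc |cc J - tri J α| * Real.exp (-(α * l) ^ 2 / 2) ≤ (K * α) * Real.exp (-(α * l) ^ 2 / 2) :=
          mul_le_mul_of_nonneg_right h5 (Real.exp_pos _).le
      _ = K / l * (α * l * Real.exp (-(α * l) ^ 2 / 2)) := by
          field_simp
  calc l * |∫ α in (0 : ℝ)..(1 / 2), (cc J - tri J α) * Real.exp (-(α * l) ^ 2 / 2)| ≤
      l * (K / l * ∫ α in (0 : ℝ)..(1 / 2), (α * l) * Real.exp (-(α * l) ^ 2 / 2)) :=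
        mul_le_mul_of_nonneg_left h4 hl.le
    _ = K / l * (l * ∫ α in (0 : ℝ)..(1 / 2), (α * l) * Real.exp (-(α * l) ^ 2 / 2)) := by ring
    _ ≤ K / l * 1 := by
        rw [e3]
        apply mul_le_mul_of_nonneg_left _ (by positivity)
        have := Real.exp_pos (-(l / 2) ^ 2 / 2)
        linarith
    _ = K / l := mul_one _

lemma Err_le (J : ℕ) (hJ : 1 ≤ J) (l C E : ℝ) (hl : 0 < l) (hC : 0 ≤ C) (hE : 0 ≤ E) :
    ∫ α in (0 : ℝ)..(1 / 2), tri J α * (C * Real.exp (-(α * l)) + E) ≤ cc J * C / l + E := by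
  have htc := tri_cont J
  have hc := cc_nonneg J
  have e1 : ∫ α in (0 : ℝ)..(1 / 2), Real.exp (-(α * l)) ≤ 1 / l := by
    have h := intervalIntegral.mul_integral_comp_mul_right (a := 0) (b := 1 / 2)
      (f := fun v : ℝ => Real.exp (-v)) (c := l)
    rw [zero_mul, int_e] at h
    rw [le_div_iff₀ hl, mul_comm, h]
    have := Real.exp_pos (-(1 / 2 * l))
    linarith
  calc ∫ α in (0 : ℝ)..(1 / 2), tri J α * (C * Real.exp (-(α * l)) + E) ≤
      ∫ α in (0 : ℝ)..(1 / 2), (cc J * C * Real.exp (-(α * l)) + E * tri J α) := by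
        refine intervalIntegral.integral_mono_on (by norm_num)
          (Continuous.intervalIntegrable (by fun_prop) _ _)
          (Continuous.intervalIntegrable (by fun_prop) _ _) fun α _ => ?_
        have h1 := tri_le J α
        have h2 := tri_nonneg J α
        have h3 : 0 ≤ C * Real.exp (-(α * l)) := by positivity
        nlinarith
    _ = cc J * C * (∫ α in (0 : ℝ)..(1 / 2), Real.exp (-(α * l))) +
        E * ∫ α in (0 : ℝ)..(1 / 2), tri J α := by
        rw [intervalIntegral.integral_add (Continuous.intervalIntegrable (by fun_prop) _ _)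
          (Continuous.intervalIntegrable (by fun_prop) _ _), intervalIntegral.integral_const_mul,
          intervalIntegral.integral_const_mul]
    _ ≤ cc J * C * (1 / l) + E * 1 := by
        have := half_tri J hJ
        gcongr
    _ = _ := by ring

/-- the mean square of the prime sum -/
lemma DD_ms {a : ℕ → ℂ} (ha : ∀ n, ‖a n‖ ≤ ArithmeticFunction.vonMangoldt n) (J : ℕ) (l : ℝ)
    (X : ℕ) (T1 T2 B : ℝ) (hT : T1 ≤ T2) (hX : 0 ≤ 8 * X * (1 + Real.log X))
    (hB : ∑ n ∈ Finset.Icc 1 X, ArithmeticFunction.vonMangoldt n ^ 2 / n * gg J l n ^ 2 ≤ B) :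
    ∫ t in T1..T2, ‖DD a J l X t‖ ^ 2 ≤ (T2 - T1 + 8 * X * (1 + Real.log X)) * B := by
  refine (H370.mean_value (fun n => a n * (Real.sqrt n : ℂ)⁻¹ * (gg J l n : ℂ)) X T1 T2 hT).trans ?_
  apply mul_le_mul_of_nonneg_left _ (by linarith)
  refine (Finset.sum_le_sum fun n hn => ?_).trans hB
  have hn1 : 1 ≤ n := (Finset.mem_Icc.mp hn).1
  have hn0 : (0 : ℝ) < n := by exact_mod_cast hn1
  rw [norm_mul, norm_mul, norm_inv, Complex.norm_real, Complex.norm_real,
    Real.norm_of_nonneg (Real.sqrt_nonneg _), mul_pow, mul_pow, inv_pow, Real.sq_sqrt hn0.le,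
    Real.norm_eq_abs, sq_abs, ← div_eq_mul_inv]
  have := ha n
  gcongr

theorem claimA : ∃ C6 : ℝ, 0 < C6 ∧ ∀ lam : ℝ, 1 ≤ lam → ∀ J : ℕ, 1 ≤ J → ∀ ε : ℝ, 0 < ε →
    ∃ T0 : ℝ, 10 ≤ T0 ∧ ∀ T : ℝ, T0 ≤ T → ∃ U1 U2 : ℝ, T ≤ U1 ∧ U1 ≤ T + 1 ∧ 2 * T - 1 ≤ U2 ∧
      U2 ≤ 2 * T ∧ T + Real.log T ≤ 2 * T - Real.log T ∧
      ∫ t in (T + Real.log T)..(2 * T - Real.log T),
        |2 * (HT J (Real.log T / lam) U1 U2 t).re - lam * cc J| ≤ (C6 / Real.sqrt J + ε) * T := by
  obtain ⟨a, ha, C1, T1, hC1, hT1, hEF⟩ := H370.explicit_formula good_zeta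
  obtain ⟨C2, hC2, hcoef⟩ := coef
  refine ⟨2 * Real.sqrt (6 * C2), by positivity, fun lam hlam J hJ ε hε => ?_⟩
  have hlam0 : 0 < lam := by linarith
  have hJ' : (0 : ℝ) < J := by exact_mod_cast hJ
  have hpi := Real.pi_pos
  set ζ2 : ℝ := ∑' n : ℕ, 1 / (n : ℝ) ^ 2 with hζ2
  have hζ0 : 0 ≤ ζ2 := tsum_nonneg fun n => by positivity
  set c0 : ℝ := 1 / Real.sqrt (2 * Real.pi) with hc0
  have hs1 : 1 ≤ Real.sqrt (2 * Real.pi) := by
    rw [Real.one_le_sqrt]; linarith [Real.pi_gt_three]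
  have hc00 : 0 < c0 := by positivity
  have hc01 : c0 ≤ 1 := by rw [hc0, div_le_one (by positivity)]; exact hs1
  have hlog := Real.tendsto_log_atTop
  have hll : Tendsto (fun T : ℝ => Real.log T / lam) atTop atTop := hlog.atTop_div_const hlam0
  -- the truncation error
  set EE : ℝ → ℝ := fun L => 2 * ζ2 * (Real.exp (4 + L) * Real.exp (-(L / 4) ^ 2 / 4)) with hEE
  have hE0 : Tendsto EE atTop (𝓝 0) := by
    have h1 : Tendsto (fun L : ℝ => 4 + L + -(L / 4) ^ 2 / 4) atTop atBot := by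
      have h2 : Tendsto (fun L : ℝ => L * (L / 64 - 1)) atTop atTop := by
        apply Tendsto.atTop_mul_atTop₀ tendsto_id
        exact tendsto_atTop_add_const_right _ _ (tendsto_id.atTop_div_const (by norm_num))
      have h3 := (tendsto_neg_atTop_atBot.comp h2)
      have h4 := tendsto_atBot_add_const_left _ 4 h3
      refine h4.congr fun L => ?_
      simp only [Function.comp_apply]
      ring
    have h2 := (Real.tendsto_exp_atBot.comp h1).const_mul (2 * ζ2)
    rw [mul_zero] at h2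
    refine h2.congr fun L => ?_
    simp only [Function.comp_apply, hEE]
    rw [← Real.exp_add]
  have hev1 : ∀ᶠ T : ℝ in atTop, 2 * (cc J * C1 / (Real.log T / lam) + EE (Real.log T)) ≤ ε / 2 := by
    have h1 : Tendsto (fun T : ℝ => 2 * (cc J * C1 / (Real.log T / lam) + EE (Real.log T))) atTop
        (𝓝 (2 * (0 + 0))) :=
      ((tendsto_const_nhds.div_atTop hll).add (hE0.comp hlog)).const_mul 2
    rw [add_zero, mul_zero] at h1
    exact h1.eventually_le_const (by positivity)
  have hev2 : ∀ᶠ T : ℝ in atTop,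
      |2 * c0 * lam * ((Real.log T / lam) * gg J (Real.log T / lam) 1) - lam * cc J| ≤ ε / 2 := by
    have h1 := (((G_lim J).comp hll).const_mul (2 * c0 * lam)).sub_const (lam * cc J)
    have h2 : 2 * c0 * lam * (cc J * (Real.sqrt (2 * Real.pi) / 2)) - lam * cc J = 0 := by
      rw [hc0]; field_simp; ring
    rw [h2] at h1
    have h3 := h1.abs
    rw [abs_zero] at h3
    exact h3.eventually_le_const (by positivity)
  have hev3 : ∀ᶠ T : ℝ in atTop, 8 * (1 + Real.log T) ≤ T ^ (1 / 4 : ℝ) := by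
    have h1 : (fun T : ℝ => 8 * (1 + Real.log T)) =o[atTop] fun T : ℝ => T ^ (1 / 4 : ℝ) := by
      apply Asymptotics.IsLittleO.const_mul_left
      refine Asymptotics.IsLittleO.add ?_ (isLittleO_log_rpow_atTop (by norm_num))
      rw [Asymptotics.isLittleO_const_left]
      right
      refine tendsto_norm_atTop_atTop.comp (tendsto_rpow_atTop (by norm_num))
    have h2 := h1.bound (c := 1) one_pos
    filter_upwards [h2, eventually_ge_atTop 1] with T hT hT1
    rw [one_mul, Real.norm_of_nonneg (Real.rpow_nonneg (by linarith) _)] at hT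
    exact (le_abs_self _).trans hT
  have hev4 : ∀ᶠ T : ℝ in atTop, 2 * Real.log T ≤ T := by
    have h1 : (fun T : ℝ => 2 * Real.log T) =o[atTop] fun T : ℝ => T :=
      Asymptotics.IsLittleO.const_mul_left Real.isLittleO_log_id_atTop _
    have h2 := h1.bound (c := 1) one_pos
    filter_upwards [h2, eventually_ge_atTop 1] with T hT hT1
    rw [one_mul, Real.norm_of_nonneg (by linarith : (0 : ℝ) ≤ T)] at hT
    exact (le_abs_self _).trans hT
  have hev5 : ∀ᶠ T : ℝ in atTop, cc J ^ 2 * J ≤ Real.log T / lam :=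
    hll.eventually_ge_atTop _
  obtain ⟨T2, hT2⟩ := (hev1.and (hev2.and (hev3.and (hev4.and hev5)))).exists_forall_of_atTop
  refine ⟨max T1 T2, hT1.trans (le_max_left _ _), fun T hT => ?_⟩
  have hTT1 : T1 ≤ T := (le_max_left _ _).trans hT
  obtain ⟨g1, g2, g3, g4, g5⟩ := hT2 T ((le_max_right _ _).trans hT)
  obtain ⟨U1, U2, hU1, hU2, hU3, hU4, hef⟩ := hEF T hTT1
  have hT10 : 10 ≤ T := hT1.trans hTT1
  have hT0 : 0 < T := by linarith
  have hL0 : 0 < Real.log T := Real.log_pos (by linarith)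
  set L := Real.log T with hL
  set l := L / lam with hl
  have hl0 : 0 < l := by positivity
  have hlL : l ≤ L := by rw [hl, div_le_iff₀ hlam0]; nlinarith
  set X : ℕ := ⌊T ^ (3 / 4 : ℝ)⌋₊ with hX
  have hXle : (X : ℝ) ≤ T ^ (3 / 4 : ℝ) := Nat.floor_le (by positivity)
  have hXlog : 3 / 4 * L ≤ Real.log (X + 1) := by
    rw [hL, ← Real.log_rpow hT0]
    exact Real.log_le_log (by positivity) (Nat.lt_floor_add_one _).le
  have hX1 : (1 : ℝ) ≤ X := by
    have h1 : 1 ≤ T ^ (3 / 4 : ℝ) := Real.one_le_rpow (by linarith) (by norm_num)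
    exact_mod_cast (Nat.one_le_floor_iff _).2 h1
  have hXlog2 : Real.log X ≤ L := by
    apply Real.log_le_log (by linarith)
    refine hXle.trans ?_
    calc T ^ (3 / 4 : ℝ) ≤ T ^ (1 : ℝ) :=
          Real.rpow_le_rpow_of_exponent_le (by linarith) (by norm_num)
      _ = T := Real.rpow_one T
  have hXT : 8 * X * (1 + Real.log X) ≤ T := by
    calc 8 * X * (1 + Real.log X) ≤ 8 * T ^ (3 / 4 : ℝ) * (1 + L) := by
          have : 0 ≤ Real.log X := Real.log_nonneg hX1
          gcongr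
      _ = T ^ (3 / 4 : ℝ) * (8 * (1 + L)) := by ring
      _ ≤ T ^ (3 / 4 : ℝ) * T ^ (1 / 4 : ℝ) := by gcongr
      _ = T := by
          rw [← Real.rpow_add hT0]; norm_num
  have hX0 : 0 ≤ 8 * X * (1 + Real.log X) := by
    have : 0 ≤ Real.log X := Real.log_nonneg hX1
    positivity
  refine ⟨U1, U2, hU1, hU2, hU3, hU4, by linarith, ?_⟩
  have hU : 1 ≤ U1 := by linarith
  -- the pointwise estimate
  have hpt : ∀ t ∈ Icc (T + L) (2 * T - L),
      |2 * (HT J l U1 U2 t).re - lam * cc J| ≤ ε + 2 * ‖DD a J l X t‖ := by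
    intro t ht
    have h1 := H_est (a := a) J l U1 U2 t L C1 (EE L) X hU hl0.le (by
      intro u hu0 hu1
      have h2 := hef u t hu0 (by linarith) ht.1 ht.2
      have h3 := H370.PP_trunc ha u t (L / 4) X (by positivity) (by linarith)
      have h4 : Real.exp (4 + 2 * u) ≤ Real.exp (4 + L) := Real.exp_le_exp.2 (by linarith)
      have e1 : AA riemannZeta U1 U2 u t - (c0 : ℂ) *
          (L * cexp (I * u * t) * Real.exp (-u ^ 2 / 2) - ∑ n ∈ Finset.Icc 1 X, pterm a u t n) =
          (AA riemannZeta U1 U2 u t - (c0 : ℂ) *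
            (L * cexp (I * u * t) * Real.exp (-u ^ 2 / 2) - H370.PP a u t)) -
          (c0 : ℂ) * (H370.PP a u t - ∑ n ∈ Finset.Icc 1 X, pterm a u t n) := by ring
      rw [e1]
      refine (norm_sub_le _ _).trans (add_le_add h2 ?_)
      rw [norm_mul, Complex.norm_real, Real.norm_of_nonneg hc00.le]
      calc c0 * ‖H370.PP a u t - ∑ n ∈ Finset.Icc 1 X, pterm a u t n‖ ≤
          1 * (2 * ζ2 * (Real.exp (4 + 2 * u) * Real.exp (-(L / 4) ^ 2 / 4))) := by
            apply mul_le_mul hc01 h3 (norm_nonneg _) zero_le_one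
        _ ≤ EE L := by
            rw [one_mul]
            show 2 * ζ2 * (Real.exp (4 + 2 * u) * Real.exp (-(L / 4) ^ 2 / 4)) ≤
              2 * ζ2 * (Real.exp (4 + L) * Real.exp (-(L / 4) ^ 2 / 4))
            gcongr)
    have h2 := Err_le J hJ l C1 (EE L) hl0 hC1.le (by simp only [hEE]; positivity)
    set HH := HT J l U1 U2 t with hHH
    set D := DD a J l X t with hD
    have e1 : 2 * HH.re - lam * cc J = 2 * (HH - (c0 : ℂ) * (L * (gg J l 1 : ℂ) - D)).re +
        (2 * c0 * lam * (l * gg J l 1) - lam * cc J) - 2 * c0 * D.re := by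
      have e2 : ((c0 : ℂ) * (L * (gg J l 1 : ℂ) - D)).re = c0 * (L * gg J l 1 - D.re) := by
        rw [Complex.re_ofReal_mul, Complex.sub_re, ← Complex.ofReal_mul, Complex.ofReal_re]
      rw [Complex.sub_re, e2, hl]
      field_simp
      ring
    rw [e1]
    have h3 : |2 * (HH - (c0 : ℂ) * (L * (gg J l 1 : ℂ) - D)).re| ≤ ε / 2 := by
      rw [abs_mul, abs_of_pos (by norm_num : (0 : ℝ) < 2)]
      have h4 := Complex.abs_re_le_norm (HH - (c0 : ℂ) * (L * (gg J l 1 : ℂ) - D))
      have h5 := h1.trans h2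
      rw [← hc0] at h5
      linarith
    have h4 : |2 * c0 * D.re| ≤ 2 * ‖D‖ := by
      rw [abs_mul, abs_of_pos (by positivity : (0 : ℝ) < 2 * c0)]
      have h5 := Complex.abs_re_le_norm D
      have h6 := abs_nonneg D.re
      have h7 := norm_nonneg D
      nlinarith
    calc |2 * (HH - (c0 : ℂ) * (L * (gg J l 1 : ℂ) - D)).re +
          (2 * c0 * lam * (l * gg J l 1) - lam * cc J) - 2 * c0 * D.re| ≤
        |2 * (HH - (c0 : ℂ) * (L * (gg J l 1 : ℂ) - D)).re| +
          |2 * c0 * lam * (l * gg J l 1) - lam * cc J| + |2 * c0 * D.re| := by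
          refine (abs_sub _ _).trans (add_le_add (abs_add_le _ _) le_rfl)
      _ ≤ ε / 2 + ε / 2 + 2 * ‖D‖ := add_le_add (add_le_add h3 g2) h4
      _ = _ := by ring
  have hDc := DD_cont a J l X
  have hHc := HT_re_cont J l (U2 := U2) hU
  have hle : T + L ≤ 2 * T - L := by linarith
  have h1 : ∫ t in (T + L)..(2 * T - L), |2 * (HT J l U1 U2 t).re - lam * cc J| ≤
      ∫ t in (T + L)..(2 * T - L), (ε + 2 * ‖DD a J l X t‖) :=
    intervalIntegral.integral_mono_on hle
      (Continuous.intervalIntegrable (by fun_prop) _ _)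
      (Continuous.intervalIntegrable (by fun_prop) _ _) hpt
  have h2 : ∫ t in (T + L)..(2 * T - L), (ε + 2 * ‖DD a J l X t‖) ≤
      ∫ t in T..(T + T), (ε + 2 * ‖DD a J l X t‖) := by
    refine intervalIntegral.integral_mono_interval (by linarith) hle (by linarith)
      (Eventually.of_forall fun t => ?_) (Continuous.intervalIntegrable (by fun_prop) _ _)
    show 0 ≤ ε + 2 * ‖DD a J l X t‖
    positivity
  have h3 : ∫ t in T..(T + T), (ε + 2 * ‖DD a J l X t‖) =
      ε * T + 2 * ∫ t in T..(T + T), ‖DD a J l X t‖ := by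
    rw [intervalIntegral.integral_add (Continuous.intervalIntegrable (by fun_prop) _ _)
      (Continuous.intervalIntegrable (by fun_prop) _ _), intervalIntegral.integral_const,
      intervalIntegral.integral_const_mul, smul_eq_mul]
    ring
  have hcf := hcoef J hJ X l hl0
  have hB : ∑ n ∈ Finset.Icc 1 X, ArithmeticFunction.vonMangoldt n ^ 2 / n * gg J l n ^ 2 ≤
      3 * C2 / J := by
    refine hcf.trans ?_
    have h4 : cc J ^ 2 / l ≤ 1 / J := by
      rw [div_le_div_iff₀ hl0 hJ']; linarith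
    calc C2 * (cc J ^ 2 / l + 2 / J) ≤ C2 * (1 / J + 2 / J) := by gcongr
      _ = 3 * C2 / J := by ring
  have hms := DD_ms ha J l X T (T + T) _ (by linarith) hX0 hB
  have hms2 : ∫ t in T..(T + T), ‖DD a J l X t‖ ^ 2 ≤ Real.sqrt (6 * C2 / J) ^ 2 * T := by
    rw [Real.sq_sqrt (by positivity)]
    refine hms.trans ?_
    calc (T + T - T + 8 * X * (1 + Real.log X)) * (3 * C2 / J) ≤ (T + T) * (3 * C2 / J) := by
          gcongr
          linarith
      _ = _ := by ring
  have h4 := cs_interval (f := fun t => ‖DD a J l X t‖) (u := T) (H := T) hT0.le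
    (Continuous.intervalIntegrable (by fun_prop) _ _)
    (Continuous.intervalIntegrable (by fun_prop) _ _) (A := Real.sqrt (6 * C2 / J))
    (by positivity) hms2
  simp only [abs_norm] at h4
  have h5 : Real.sqrt (6 * C2 / J) = Real.sqrt (6 * C2) / Real.sqrt J :=
    Real.sqrt_div (by positivity) _
  calc _ ≤ ε * T + 2 * ∫ t in T..(T + T), ‖DD a J l X t‖ := (h1.trans h2).trans_eq h3
    _ ≤ ε * T + 2 * (Real.sqrt (6 * C2 / J) * T) := by gcongr
    _ = _ := by rw [h5]; ring

end Pool.Agent.TH850.UR
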