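import Pool.Agent.W186.SD.MainD
import Pool.Agent.W655.SD.SC2
import Pool.Agent.W327.SD.SFar
import Pool.Agent.W347.SD.SB2
import Pool.Agent.W32.SD.SCount
import Pool.Agent.W125.SD.SUnit
import Pool.Agent.W571.SD.Mid

set_option autoImplicit false

/-! # Selberg's density theorem near the critical line, for the zeros of `XX` -/

namespace Pool.Agent.TH850.UR

open Complex Filter Topology MeasureTheory Set
open Pool.Agent.H24R2.JP (XX)
open Pool.Agent.H24R2.DZ
open Pool.Agent.W571.SD

theorem sc2 : SC2 := Pool.Agent.W655.SD.sc2 Pool.Agent.W261.SD.ssq Pool.Agent.W688.SD.shar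

theorem sb2 : SB2 := Pool.Agent.W347.SD.sb2

theorem scount : SCount := Pool.Agent.W32.SD.scount sb2

theorem sunit : SUnit := Pool.Agent.W125.SD.sunit sb2

theorem XX_diff : Differentiable ℂ XX := by
  have h : Differentiable ℂ completedRiemannZeta₀ := differentiable_completedZeta₀
  unfold Pool.Agent.H24R2.JP.XX
  refine Differentiable.add_const _ (Differentiable.mul (by fun_prop) ?_)
  exact h.comp (by fun_prop)

/-- a good scale excludes zeros at comparable distances -/
theorem excl {η T : ℝ} {n j : ℕ} {s : ℂ} (hr : 0 < ra T (2 ^ j * n)) (hs : XX s = 0)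
    (hG : GJ η T n j s.im) (h1 : ra T (2 ^ j * n) / 1000 ≤ |s.re|)
    (h2 : |s.re| ≤ 19 * ra T (2 ^ j * n)) : False := by
  obtain ⟨t', ht, hN⟩ := hG
  set r := ra T (2 ^ j * n) with hrd
  -- the point with non-negative real part
  have key : ∀ z : ℂ, 1 / 1000 ≤ z.re → |z.re| ≤ 19 → |z.im| ≤ 1 / 100 →
      XX (I * t' + r * z) ≠ 0 := by
    intro z hz1 hz2 hz3
    refine (hN.far z hz1 ?_).1
    have := Complex.norm_le_abs_re_add_abs_im z
    linarith
  have him : |(s.im - t') / r| ≤ 1 / 100 := by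
    rw [abs_div, abs_of_pos hr, div_le_iff₀ hr]
    linarith
  rcases le_or_gt 0 s.re with h0 | h0
  · rw [abs_of_nonneg h0] at h1 h2
    have hz := key ⟨s.re / r, (s.im - t') / r⟩ (by
      show 1 / 1000 ≤ s.re / r
      rw [le_div_iff₀ hr]; linarith) (by
      show |s.re / r| ≤ 19
      rw [abs_of_nonneg (by positivity), div_le_iff₀ hr]; linarith) him
    apply hz
    have : (I * (t' : ℂ) + (r : ℂ) * (⟨s.re / r, (s.im - t') / r⟩ : ℂ)) = s := by
      apply Complex.ext
      · simp only [add_re, mul_re, I_re, ofReal_re, I_im, ofReal_im]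
        field_simp
        ring
      · simp only [add_im, mul_im, I_re, ofReal_re, I_im, ofReal_im]
        field_simp
        ring
    rw [this]
    exact hs
  · rw [abs_of_neg h0] at h1 h2
    set z : ℂ := ⟨-s.re / r, (s.im - t') / r⟩ with hzd
    have hz := key z (by
      show 1 / 1000 ≤ -s.re / r
      rw [le_div_iff₀ hr]; linarith) (by
      show |-s.re / r| ≤ 19
      rw [abs_of_nonneg (by apply div_nonneg _ hr.le; linarith), div_le_iff₀ hr]; linarith) him
    have hsym := hN.symm z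
    have : (I * (t' : ℂ) + (r : ℂ) * (-((starRingEnd ℂ) z))) = s := by
      apply Complex.ext
      · simp only [add_re, mul_re, I_re, ofReal_re, I_im, ofReal_im, neg_re, neg_im, conj_re,
          conj_im, hzd]
        field_simp
        ring
      · simp only [add_im, mul_im, I_re, ofReal_re, I_im, ofReal_im, neg_re, neg_im, conj_re,
          conj_im, hzd]
        field_simp
        ring
    rw [this, hs] at hsym
    apply hz
    have h5 := congrArg (starRingEnd ℂ) hsym
    rw [Complex.conj_conj, map_zero] at h5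
    exact h5.symm

/-- going down the scales -/
theorem descend {η T : ℝ} {n : ℕ} {s : ℂ} (hL : 0 < Real.log T) (hn : 1 ≤ n) (hs : XX s = 0)
    (i J : ℕ) (hiJ : i ≤ J) (h : ∀ j, i ≤ j → j ≤ J → GJ η T n j s.im)
    (h1 : |s.re| ≤ 5 * ra T (2 ^ J * n)) : |s.re| < ra T (2 ^ i * n) / 1000 := by
  have hn1 : (1 : ℝ) ≤ n := by exact_mod_cast hn
  have hr : ∀ j : ℕ, ra T (2 ^ j * n) = 2 * (2 ^ j * n) / Real.log T := fun j => ra_eq _ _
  have hrpos : ∀ j : ℕ, 0 < ra T (2 ^ j * n) := by
    intro j; rw [hr]; positivity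
  have step : ∀ k : ℕ, k ≤ J - i → |s.re| < ra T (2 ^ (J - k) * n) / 1000 := by
    intro k
    induction k with
    | zero =>
      intro _
      by_contra hcon
      push Not at hcon
      rw [Nat.sub_zero] at hcon
      exact excl (hrpos J) hs (h J hiJ le_rfl) hcon (by linarith [hrpos J])
    | succ k ih =>
      intro hk
      have h2 := ih (by omega)
      by_contra hcon
      push Not at hcon
      have h3 : J - k = (J - (k + 1)) + 1 := by omega
      have h4 : ra T (2 ^ (J - k) * n) = 2 * ra T (2 ^ (J - (k + 1)) * n) := by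
        rw [h3, hr, hr, pow_succ]; ring
      rw [h4] at h2
      exact excl (hrpos _) hs (h (J - (k + 1)) (by omega) (by omega)) hcon
        (by linarith [hrpos (J - (k + 1))])
  have h5 := step (J - i) le_rfl
  rwa [show J - (J - i) = i by omega] at h5

/-- Selberg's density theorem near the critical line -/
theorem dens : ∃ c C T0 : ℝ, ∃ n0 : ℕ, 0 < c ∧ 0 < C ∧ 2 ≤ T0 ∧ ∀ (T : ℝ) (n : ℕ), T0 ≤ T → n0 ≤ n →
    (n : ℝ) ≤ Real.log T / 400 → ∀ S : Finset ℂ,
    (∀ s ∈ S, XX s = 0 ∧ ra T n / 1000 ≤ |s.re| ∧ T < s.im ∧ s.im ≤ 2 * T) →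
    ∑ s ∈ S, wt 0 s ≤ C * T * Real.exp (-(c * n)) * Real.log T := by
  classical
  obtain ⟨η, C4, hη, hC4, hcount⟩ := scount
  obtain ⟨η1, ε1, hη1, hε1, hsc2⟩ := sc2 η hη
  obtain ⟨θ, c1, C1, a1, T1, hθ, hθ', hc1, hC1, ha1, hT1, hsc1⟩ :=
    Pool.Agent.W186.SD.sc1 η1 ε1 hη1 hε1
  obtain ⟨a2, T2, hsc2'⟩ := hsc2 θ hθ hθ'
  obtain ⟨c3, C3, T3, hc3, hC3, hT3, hfar⟩ := W327.SD.sfar
  obtain ⟨C5, T5, hC5, hT5, hunit⟩ := sunit
  have hq1 : Real.exp (-c1) < 1 := Real.exp_lt_one_iff.2 (by linarith)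
  set Q : ℝ := 1 / (1 - Real.exp (-c1)) with hQ
  have hQ0 : 0 < Q := by rw [hQ]; apply one_div_pos.2; linarith
  refine ⟨min c1 c3, 40000 * C5 * C1 + 50 * C4 * C1 * Q + 10 * C5 * C3 / c3,
    max (max (max T1 T2) T3) (max (2 * T5 + 2) 1000), max ⌈a1⌉₊ (max ⌈a2⌉₊ 1),
    lt_min hc1 hc3, by positivity, ?_, ?_⟩
  · exact le_trans (by norm_num) ((le_max_right _ _).trans (le_max_right _ _))
  intro T n hT hn hnL S hS
  -- unpack the sizes
  have hTT1 : T1 ≤ T := ((le_max_left _ _).trans ((le_max_left _ _).trans (le_max_left _ _))).trans hT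
  have hTT2 : T2 ≤ T := ((le_max_right _ _).trans ((le_max_left _ _).trans (le_max_left _ _))).trans hT
  have hTT3 : T3 ≤ T := ((le_max_right _ _).trans (le_max_left _ _)).trans hT
  have hTT5 : 2 * T5 + 2 ≤ T := ((le_max_left _ _).trans (le_max_right _ _)).trans hT
  have hT1000 : 1000 ≤ T := ((le_max_right _ _).trans (le_max_right _ _)).trans hT
  have hT0 : 0 < T := by linarith
  have hna1 : a1 ≤ n := by
    have : ⌈a1⌉₊ ≤ n := (le_max_left _ _).trans hn
    exact (Nat.le_ceil a1).trans (by exact_mod_cast this)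
  have hna2 : a2 ≤ n := by
    have : ⌈a2⌉₊ ≤ n := ((le_max_left _ _).trans (le_max_right _ _)).trans hn
    exact (Nat.le_ceil a2).trans (by exact_mod_cast this)
  have hn1 : 1 ≤ n := ((le_max_right _ _).trans (le_max_right _ _)).trans hn
  have hn1' : (1 : ℝ) ≤ n := by exact_mod_cast hn1
  set L := Real.log T with hL
  have hL400 : 400 ≤ L := by linarith
  have hL0 : 0 < L := by linarith
  have hLT : L ≤ T := by
    have := Real.log_le_sub_one_of_pos hT0
    linarith
  have hlog3 : Real.log (3 * T) ≤ 2 * L := by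
    rw [Real.log_mul (by norm_num) hT0.ne']
    have : Real.log 3 ≤ 2 := by
      have := Real.log_le_sub_one_of_pos (show (0 : ℝ) < 3 by norm_num)
      linarith
    linarith
  have hlog0 : ∀ x : ℝ, T / 2 ≤ x → (((0 : ℕ) : ℝ)) ≤ 60 * Real.log x := by
    intro x hx
    have := Real.log_nonneg (show (1 : ℝ) ≤ x by linarith)
    push_cast
    linarith
  obtain ⟨J, hJ1, hJ2, hJ3⟩ := exists_J hn1 hnL
  -- the radii
  have hr : ∀ j : ℕ, ra T (2 ^ j * n) = 2 * (2 ^ j * n) / L := fun j => ra_eq _ _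
  have hrpos : ∀ j : ℕ, 0 < ra T (2 ^ j * n) := by
    intro j; rw [hr]; positivity
  have hrJ1 : ra T (2 ^ J * n) ≤ 1 / 100 := by
    rw [hr, div_le_iff₀ hL0]; linarith
  have hrJ2 : 1 / 200 < ra T (2 ^ J * n) := by
    rw [hr, lt_div_iff₀ hL0]; linarith
  have hpow : ∀ j : ℕ, j ≤ J → (2 : ℝ) ^ j * n ≤ L / 200 := by
    intro j hj
    refine le_trans ?_ hJ2
    apply mul_le_mul_of_nonneg_right _ (by positivity)
    exact pow_le_pow_right₀ (by norm_num) hj
  have hpow1 : ∀ j : ℕ, (n : ℝ) ≤ 2 ^ j * n := by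
    intro j
    exact le_mul_of_one_le_left (by positivity) (one_le_pow₀ (by norm_num))
  have hrj : ∀ j : ℕ, j ≤ J → ra T (2 ^ j * n) ≤ 1 / 100 := by
    intro j hj
    rw [hr, div_le_iff₀ hL0]
    have := hpow j hj
    linarith
  -- bad heights
  have hBvol : ∀ j : ℕ, j ≤ J → volume (BB η T (2 ^ j * n)) ≤
      ENNReal.ofReal (C1 * T * Real.exp (-(c1 * (2 ^ j * n)))) := by
    intro j hj
    refine le_trans (measure_mono ?_) (hsc1 T (2 ^ j * n) hTT1 (hna1.trans (hpow1 j)) (hpow j hj))
    intro t0 ht0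
    refine ⟨ht0.1, ht0.2.1, fun hG => ht0.2.2 ?_⟩
    exact hsc2' T (2 ^ j * n) t0 hTT2 (hna2.trans (hpow1 j)) (hpow j hj) ht0.1 ht0.2.1 hG
  -- covering of `S`
  have hcov : ∀ s ∈ S, ¬ GJ η T n J s.im ∨ 5 * ra T (2 ^ J * n) < |s.re| ∨
      ∃ i < J, ¬ GJ η T n i s.im ∧ GJ η T n (i + 1) s.im ∧ |s.re| ≤ 5 * ra T (2 ^ (i + 1) * n) := by
    intro s hs
    obtain ⟨hbad, hs0, hs1, hs2⟩ := hS s hs
    by_cases hc : GJ η T n J s.im
    swap
    · exact Or.inl hc
    by_cases hf : 5 * ra T (2 ^ J * n) < |s.re|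
    · exact Or.inr (Or.inl hf)
    right; right
    push Not at hf
    by_cases hall : ∀ j, j ≤ J → GJ η T n j s.im
    · exfalso
      have h10 := descend hL0 hn1 hbad 0 J (Nat.zero_le _) (fun j _ hj => hall j hj) hf
      rw [pow_zero, one_mul] at h10
      linarith
    · push Not at hall
      obtain ⟨j1, hj1, hj1'⟩ := hall
      set i := Nat.findGreatest (fun j => ¬ GJ η T n j s.im) J with hi
      have hi1 : ¬ GJ η T n i s.im :=
        Nat.findGreatest_spec (P := fun j => ¬ GJ η T n j s.im) hj1 hj1'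
      have hi2 : i ≤ J := Nat.findGreatest_le J
      have hi3 : i < J := by
        rcases hi2.lt_or_eq with h | h
        · exact h
        · rw [h] at hi1; exact absurd hc hi1
      have hi4 : ∀ j, i + 1 ≤ j → j ≤ J → GJ η T n j s.im := by
        intro j hj1 hj2
        by_contra hcon
        have := Nat.le_findGreatest (P := fun j => ¬ GJ η T n j s.im) hj2 hcon
        rw [← hi] at this
        omega
      refine ⟨i, hi3, hi1, hi4 (i + 1) le_rfl hi3, ?_⟩
      have h10 := descend hL0 hn1 hbad (i + 1) J hi3 hi4 hf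
      linarith [hrpos (i + 1)]
  have hsplit := split3 (wt 0) (wt_nonneg 0) S (fun s => ¬ GJ η T n J s.im)
    (fun s => 5 * ra T (2 ^ J * n) < |s.re|)
    (fun i s => ¬ GJ η T n i s.im ∧ GJ η T n (i + 1) s.im ∧ |s.re| ≤ 5 * ra T (2 ^ (i + 1) * n))
    J hcov
  have hit : ∀ s : ℂ, XX s = 0 → iteratedDeriv 0 XX s = 0 := fun s h => by
    rw [iteratedDeriv_zero]; exact h
  -- the class (c)
  have hbc : ∑ s ∈ S.filter (fun s => ¬ GJ η T n J s.im), wt 0 s ≤
      40000 * C5 * C1 * T * Real.exp (-(c1 * n)) * L := by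
    have hδ0 : 0 < ra T (2 ^ J * n) / 100 := by have := hrpos J; positivity
    have h10 := cover (wt 0) (wt_nonneg 0) (fun s => s.im) (ra T (2 ^ J * n) / 100) (4 * C5 * L)
      hδ0 (by positivity) (S.filter (fun s => ¬ GJ η T n J s.im))
      (BB η T (2 ^ J * n)) (C1 * T * Real.exp (-(c1 * (2 ^ J * n)))) (by positivity)
      (by
        intro s hs
        rw [Finset.mem_filter] at hs
        obtain ⟨hbad, hs0, hs1, hs2⟩ := hS s hs.1
        exact int_sub_B (by linarith) hs1 hs2 rfl (by linarith) hs.2)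
      (hBvol J le_rfl)
      (by
        intro s0 hs0
        obtain ⟨hbad0, _, hs1, hs2⟩ := hS s0 ((Finset.filter_subset _ _) hs0)
        have h11 := window hC5 hT5 hunit 0 (s0.im - 2 * (ra T (2 ^ J * n) / 100))
          (4 * (ra T (2 ^ J * n) / 100)) (by linarith) (hlog0 _ (by linarith)) (by positivity)
          ((S.filter (fun s => ¬ GJ η T n J s.im)).filter
            (fun s' => |s'.im - s0.im| ≤ 2 * (ra T (2 ^ J * n) / 100))) (by
            intro s hs
            rw [Finset.mem_filter] at hs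
            obtain ⟨hbad, _, hs3, hs4⟩ := hS s ((Finset.filter_subset _ _) hs.1)
            have := abs_le.1 hs.2
            exact ⟨by linarith, by linarith, hit s hbad⟩)
        refine h11.trans ?_
        have h12 : Real.log (s0.im - 2 * (ra T (2 ^ J * n) / 100) + 4 * (ra T (2 ^ J * n) / 100)) ≤
            2 * L := (Real.log_le_log (by linarith) (by linarith)).trans hlog3
        have h13 : 4 * (ra T (2 ^ J * n) / 100) + 1 ≤ 2 := by linarith
        calc (4 * (ra T (2 ^ J * n) / 100) + 1) *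
              (C5 * Real.log (s0.im - 2 * (ra T (2 ^ J * n) / 100) + 4 * (ra T (2 ^ J * n) / 100)))
            ≤ 2 * (C5 * (2 * L)) := by
              apply mul_le_mul h13 (mul_le_mul_of_nonneg_left h12 hC5.le) _ (by norm_num)
              apply mul_nonneg hC5.le (Real.log_nonneg (by linarith))
          _ = 4 * C5 * L := by ring)
    refine h10.trans ?_
    rw [div_le_iff₀ (by positivity)]
    have h14 : Real.exp (-(c1 * (2 ^ J * n))) ≤ Real.exp (-(c1 * n)) := by
      apply Real.exp_le_exp.2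
      have := mul_le_mul_of_nonneg_left (hpow1 J) hc1.le
      linarith
    have h15 : (1 : ℝ) / 10000 ≤ 2 * (ra T (2 ^ J * n) / 100) := by linarith
    have h16 : 0 ≤ 40000 * C5 * C1 * T * Real.exp (-(c1 * n)) * L := by positivity
    calc 4 * C5 * L * (C1 * T * Real.exp (-(c1 * (2 ^ J * n))))
        ≤ 4 * C5 * L * (C1 * T * Real.exp (-(c1 * n))) := by gcongr
      _ = 40000 * C5 * C1 * T * Real.exp (-(c1 * n)) * L * (1 / 10000) := by ring
      _ ≤ _ := mul_le_mul_of_nonneg_left h15 h16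
  -- the classes (b)
  have hbi : ∀ i ∈ Finset.range J, ∑ s ∈ S.filter (fun s => ¬ GJ η T n i s.im ∧
      GJ η T n (i + 1) s.im ∧ |s.re| ≤ 5 * ra T (2 ^ (i + 1) * n)), wt 0 s ≤
      50 * C4 * C1 * T * L * Real.exp (-(c1 * (2 ^ i * n))) := by
    intro i hi
    rw [Finset.mem_range] at hi
    have hri := hrpos i
    have hri1 := hrpos (i + 1)
    have hdouble : ra T (2 ^ (i + 1) * n) = 2 * ra T (2 ^ i * n) := by
      rw [hr, hr, pow_succ]; ring
    have hδ0 : 0 < ra T (2 ^ i * n) / 100 := by positivity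
    have h10 := cover (wt 0) (wt_nonneg 0) (fun s => s.im) (ra T (2 ^ i * n) / 100)
      (C4 * (2 ^ (i + 1) * n)) hδ0 (by positivity)
      (S.filter (fun s => ¬ GJ η T n i s.im ∧
        GJ η T n (i + 1) s.im ∧ |s.re| ≤ 5 * ra T (2 ^ (i + 1) * n)))
      (BB η T (2 ^ i * n)) (C1 * T * Real.exp (-(c1 * (2 ^ i * n)))) (by positivity)
      (by
        intro s hs
        rw [Finset.mem_filter] at hs
        obtain ⟨hbad, _, hs1, hs2⟩ := hS s hs.1
        exact int_sub_B (by linarith) hs1 hs2 rfl (by linarith [hrj i hi.le]) hs.2.1)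
      (hBvol i hi.le)
      (by
        intro s0 hs0
        rw [Finset.mem_filter] at hs0
        obtain ⟨hs0S, -, ⟨t', ht1, ht2⟩, -⟩ := hs0
        have h11 := hcount (2 ^ (i + 1) * n) (ra T (2 ^ (i + 1) * n)) t' 0 XX
          (hn1'.trans (hpow1 _)) (by push_cast; positivity) hri1 XX_diff ht2
          ((S.filter (fun s => ¬ GJ η T n i s.im ∧
            GJ η T n (i + 1) s.im ∧ |s.re| ≤ 5 * ra T (2 ^ (i + 1) * n))).filter
            (fun s' => |s'.im - s0.im| ≤ 2 * (ra T (2 ^ i * n) / 100))) (by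
            intro s hs
            rw [Finset.mem_filter, Finset.mem_filter] at hs
            obtain ⟨⟨hsS, -, -, hre⟩, him⟩ := hs
            refine ⟨?_, hit s (hS s hsS).1⟩
            have h12 : (s - I * t').re = s.re := by simp
            have h13 : (s - I * t').im = s.im - t' := by simp
            have h14 := Complex.norm_le_abs_re_add_abs_im (s - I * t')
            rw [h12, h13] at h14
            have h15 : |s.im - t'| ≤ |s.im - s0.im| + |s0.im - t'| := abs_sub_le _ _ _
            linarith)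
        exact h11)
    refine h10.trans (le_of_eq ?_)
    rw [hr i, pow_succ]
    field_simp
    ring
  have hbb : ∑ i ∈ Finset.range J, ∑ s ∈ S.filter (fun s => ¬ GJ η T n i s.im ∧
      GJ η T n (i + 1) s.im ∧ |s.re| ≤ 5 * ra T (2 ^ (i + 1) * n)), wt 0 s ≤
      50 * C4 * C1 * Q * T * Real.exp (-(c1 * n)) * L := by
    refine (Finset.sum_le_sum hbi).trans ?_
    rw [← Finset.mul_sum]
    calc 50 * C4 * C1 * T * L * ∑ i ∈ Finset.range J, Real.exp (-(c1 * (2 ^ i * n)))
        ≤ 50 * C4 * C1 * T * L * (Real.exp (-(c1 * n)) * Q) :=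
          mul_le_mul_of_nonneg_left (geo c1 hc1 n J hn1) (by positivity)
      _ = _ := by ring
  -- the far zeros
  have hbf : ∑ s ∈ S.filter (fun s => 5 * ra T (2 ^ J * n) < |s.re|), wt 0 s ≤
      10 * C5 * C3 / c3 * T * Real.exp (-(c3 * n)) * L := by
    have hE := hfar T hTT3
    have h10 := cover (wt 0) (wt_nonneg 0) (fun s => s.im) 1 (10 * C5 * L)
      one_pos (by positivity) (S.filter (fun s => 5 * ra T (2 ^ J * n) < |s.re|))
      _ (C3 * T ^ (1 - c3)) (by positivity)
      (by
        intro s hs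
        rw [Finset.mem_filter] at hs
        obtain ⟨hbad, _, hs1, hs2⟩ := hS s hs.1
        intro x hx
        refine ⟨?_, ?_, s, hbad, ?_, ?_⟩
        · linarith [hx.1]
        · linarith [hx.2]
        · linarith [hs.2]
        · rw [abs_le]; constructor <;> linarith [hx.1, hx.2])
      hE
      (by
        intro s0 hs0
        obtain ⟨hbad0, _, hs1, hs2⟩ := hS s0 ((Finset.filter_subset _ _) hs0)
        have h11 := window hC5 hT5 hunit 0 (s0.im - 2) 4 (by linarith)
          (hlog0 _ (by linarith)) (by norm_num)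
          ((S.filter (fun s => 5 * ra T (2 ^ J * n) < |s.re|)).filter
            (fun s' => |s'.im - s0.im| ≤ 2 * 1)) (by
            intro s hs
            rw [Finset.mem_filter] at hs
            obtain ⟨hbad, _, hs3, hs4⟩ := hS s ((Finset.filter_subset _ _) hs.1)
            have h12 := abs_le.1 hs.2
            exact ⟨by linarith, by linarith, hit s hbad⟩)
        refine h11.trans ?_
        have h12 : Real.log (s0.im - 2 + 4) ≤
            2 * L := (Real.log_le_log (by linarith) (by linarith)).trans hlog3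
        calc (4 + 1 : ℝ) * (C5 * Real.log (s0.im - 2 + 4))
            ≤ (4 + 1) * (C5 * (2 * L)) := by gcongr
          _ = 10 * C5 * L := by ring)
    refine h10.trans ?_
    have hTc : T ^ (1 - c3) = T * Real.exp (-(c3 * L)) := by
      rw [Real.rpow_sub hT0, Real.rpow_one, Real.rpow_def_of_pos hT0, div_eq_mul_inv, ← Real.exp_neg]
      congr 3
      ring
    rw [hTc]
    have h14 : Real.exp (-(c3 * L)) ≤ 1 / c3 * Real.exp (-(c3 * n)) := by
      have h15 : Real.exp (-(c3 * L)) ≤ Real.exp (-(c3 * n)) * Real.exp (-(c3 * (L / 2))) := by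
        rw [← Real.exp_add]
        apply Real.exp_le_exp.2
        have : c3 * n ≤ c3 * (L / 400) := mul_le_mul_of_nonneg_left hnL hc3.le
        have h17 : 0 < c3 * L := by positivity
        linarith
      have h16 : Real.exp (-(c3 * (L / 2))) ≤ 1 / c3 := by
        rw [Real.exp_neg, inv_eq_one_div]
        apply one_div_le_one_div_of_le hc3
        have h18 := Real.add_one_le_exp (c3 * (L / 2))
        nlinarith
      calc Real.exp (-(c3 * L)) ≤ Real.exp (-(c3 * n)) * Real.exp (-(c3 * (L / 2))) := h15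
        _ ≤ Real.exp (-(c3 * n)) * (1 / c3) := mul_le_mul_of_nonneg_left h16 (Real.exp_pos _).le
        _ = _ := mul_comm _ _
    calc 10 * C5 * L * (C3 * (T * Real.exp (-(c3 * L)))) / (2 * 1)
        = 5 * C5 * C3 * T * L * (Real.exp (-(c3 * L))) := by ring
      _ ≤ 5 * C5 * C3 * T * L * (1 / c3 * Real.exp (-(c3 * n))) :=
          mul_le_mul_of_nonneg_left h14 (by positivity)
      _ = 5 * C5 * C3 / c3 * T * Real.exp (-(c3 * n)) * L := by ring
      _ ≤ _ := by
          have : 0 ≤ 5 * C5 * C3 / c3 * T * Real.exp (-(c3 * n)) * L := by positivity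
          have h20 : 10 * C5 * C3 / c3 * T * Real.exp (-(c3 * n)) * L =
            2 * (5 * C5 * C3 / c3 * T * Real.exp (-(c3 * n)) * L) := by ring
          linarith
  -- conclusion
  have he1 : Real.exp (-(c1 * n)) ≤ Real.exp (-(min c1 c3 * n)) := by
    apply Real.exp_le_exp.2
    have := mul_le_mul_of_nonneg_right (min_le_left c1 c3) (Nat.cast_nonneg (α := ℝ) n)
    linarith
  have he3 : Real.exp (-(c3 * n)) ≤ Real.exp (-(min c1 c3 * n)) := by
    apply Real.exp_le_exp.2
    have := mul_le_mul_of_nonneg_right (min_le_right c1 c3) (Nat.cast_nonneg (α := ℝ) n)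
    linarith
  calc ∑ s ∈ S, wt 0 s ≤ _ := hsplit
    _ ≤ 40000 * C5 * C1 * T * Real.exp (-(c1 * n)) * L +
        10 * C5 * C3 / c3 * T * Real.exp (-(c3 * n)) * L +
        50 * C4 * C1 * Q * T * Real.exp (-(c1 * n)) * L := by
        exact add_le_add (add_le_add hbc hbf) hbb
    _ ≤ 40000 * C5 * C1 * T * Real.exp (-(min c1 c3 * n)) * L +
        10 * C5 * C3 / c3 * T * Real.exp (-(min c1 c3 * n)) * L +
        50 * C4 * C1 * Q * T * Real.exp (-(min c1 c3 * n)) * L := by gcongr
    _ = _ := by ring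

end Pool.Agent.TH850.UR
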